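import Pool.Agent.Helper51.DO.L7

/-!
# Displaced ordinates, lower half 8: the lower half
Author: helper51.
-/

set_option autoImplicit false

namespace Pool.Agent.Helper51.DO

open MeasureTheory ProbabilityTheory Filter Finset

variable {Ω : Type*} [MeasurableSpace Ω] {P : Measure Ω} [IsProbabilityMeasure P]

theorem re_term (z : ℂ) (x : ℝ) :
    2 * (z * Complex.exp ((x : ℝ) * Complex.I)).re = 2 * ‖z‖ * Real.cos (x + z.arg) := by
  have h : z * Complex.exp ((x : ℂ) * Complex.I) =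
      ‖z‖ * Complex.exp (((x + z.arg : ℝ) : ℂ) * Complex.I) := by
    conv_lhs => rw [← Complex.norm_mul_exp_arg_mul_I z]
    rw [mul_assoc, ← Complex.exp_add]
    congr 2
    push_cast
    ring
  rw [h, Complex.re_ofReal_mul, Complex.exp_ofReal_mul_I_re]
  ring

omit [MeasurableSpace Ω] in
theorem osc_eq {g : ℕ → ℝ} {c : ℕ → ℂ} (w : ℕ → Ω → ℝ) (h : ∀ T, {n | g n ≤ T}.Finite)
    {T y : ℝ} (hTy : T ≤ Real.exp (2 * y)) (ω : Ω) :
    osc g c (fun n => w n ω) y =
      RR g (fun n => (c n).arg) (fun n => 2 * ‖c n‖) w (upto g T) y ω +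
      RR g (fun n => (c n).arg) (fun n => 2 * ‖c n‖) w (upto g (Real.exp (2 * y)) \ upto g T) y ω := by
  classical
  unfold osc RR
  rw [add_comm, sum_sdiff (upto_mono h hTy), mul_sum]
  apply sum_congr rfl
  intro n _
  rw [re_term]
  rfl

theorem lower_prob {g : ℕ → ℝ} {c : ℕ → ℂ} (h : Data g c) {w : ℕ → Ω → ℝ} {δ : ℝ}
    (hN : Noise P g w δ) {ε η : ℝ} (hε : 0 < ε) (hη : 0 < η) (hη1 : η < 1) :
    ∃ b : ℝ → ℝ, Tendsto b atTop (nhds 0) ∧ ∀ᶠ T : ℝ in atTop,
      P.real {ω | ¬ ∃ y : ℝ, Real.exp (T ^ (1 + ε)) ≤ y ∧ y ≤ 2 * Real.exp (T ^ (1 + ε)) ∧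
        (1 - η) * height g c T - 1 ≤ osc g c (fun n => w n ω) y} ≤ b T := by
  classical
  -- the degree
  obtain ⟨D, hD⟩ := exists_nat_gt (1 / η)
  have hD1 : 1 / ((D : ℝ) + 1) < η := by
    rw [div_lt_iff₀ (by positivity)]
    rw [div_lt_iff₀ hη] at hD
    nlinarith
  set ρ := η - 1 / ((D : ℝ) + 1) with hρ
  have hρ0 : 0 < ρ := by linarith
  have hρ1 : ρ ≤ 1 := by
    have : 0 < 1 / ((D : ℝ) + 1) := by positivity
    linarith
  have hρd : (D : ℝ) / (D + 1) - (1 - η) = ρ := by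
    rw [hρ]
    field_simp
    ring
  set M := 2 * ((D : ℝ) + 1) with hM
  have hD0 : (0 : ℝ) ≤ D := Nat.cast_nonneg D
  have hM2 : 2 ≤ M := by rw [hM]; linarith
  -- constants
  obtain ⟨CN', hCN'⟩ := h.count (ε / 2) (by linarith)
  set CN := |CN'| with hCN
  have hCN0 : 0 ≤ CN := abs_nonneg _
  obtain ⟨C1', hC1'⟩ := hN.decay 1
  set C1 := |C1'| with hC1
  have hC10 : 0 ≤ C1 := abs_nonneg _
  obtain ⟨K, Ch', hCh'⟩ := h.size
  set Ch := |Ch'| with hCh
  have hCh0 : 0 ≤ Ch := abs_nonneg _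
  obtain ⟨Ck', hCk'⟩ := hN.decay (K + 1)
  set Ck := |Ck'| with hCk
  have hCk0 : 0 ≤ Ck := abs_nonneg _
  obtain ⟨f, hf0, hf⟩ := tail_sq h
  -- the bounding functions
  set b1 : ℝ → ℝ := fun T => 2 * Real.exp ((2 * CN * Real.log M) * T ^ (1 + ε / 2) -
    T ^ (1 + ε) / 4) with hb1
  have hb1t : Tendsto b1 atTop (nhds 0) := exp_lim hε
  set b2 : ℝ → ℝ := fun T => M * M * C1 * b1 T with hb2
  have hb2t : Tendsto b2 atTop (nhds 0) := by
    have := hb1t.const_mul (M * M * C1)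
    simpa using this
  set sf : ℝ → ℝ := fun T => Real.exp (T ^ (1 + ε) / 2) with hsf
  have hsft : Tendsto sf atTop atTop := by
    apply Real.tendsto_exp_atTop.comp
    exact (tendsto_rpow_atTop (by linarith)).atTop_div_const (by norm_num)
  set b3 : ℝ → ℝ := fun T => Ck * Ch * 4 ^ K / (1 + sf T ^ 2) with hb3
  have hb3t : Tendsto b3 atTop (nhds 0) := by
    apply Tendsto.div_atTop tendsto_const_nhds
    apply tendsto_atTop_add_const_left
    exact (tendsto_pow_atTop (by norm_num)).comp hsft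
  set v : ℝ → ℝ := fun T => 4 * f T + b3 T ^ 2 with hv
  have hvt : Tendsto v atTop (nhds 0) := by
    have := (hf0.const_mul 4).add (hb3t.pow 2)
    simpa using this
  refine ⟨fun T => 6 * (2 * b2 T) / ρ ^ 2 + 2 * b1 T / ρ ^ 2 + 2 * v T * (b1 T + 1 + 2 * b2 T),
    ?_, ?_⟩
  · have t1 := ((hb2t.const_mul 2).const_mul 6).div_const (ρ ^ 2)
    have t2 := (hb1t.const_mul 2).div_const (ρ ^ 2)
    have t3 := (hvt.const_mul 2).mul ((hb1t.add_const 1).add (hb2t.const_mul 2))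
    have := (t1.add t2).add t3
    simpa using this
  -- the estimate
  filter_upwards [eventually_ge_atTop (1 : ℝ), hsft.eventually_ge_atTop 4,
    hsft.eventually_ge_atTop ((2 * ((D : ℝ) + 1) + 1) ^ 2),
    hb2t.eventually (ge_mem_nhds (show (0 : ℝ) < 1 by norm_num))] with T hT1 hs4 hsD hb21
  set s := sf T with hs
  have hs0 : 0 < s := by linarith
  have hs1 : 1 ≤ s := by linarith
  have hs2 : s ^ 2 = Real.exp (T ^ (1 + ε)) := by
    rw [hs, hsf, sq, ← Real.exp_add]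
    congr 1
    ring
  set q := Real.sqrt s with hq
  have hqq : q ^ 2 = s := Real.sq_sqrt hs0.le
  have hq2 : 2 ≤ q := Real.le_sqrt_of_sq_le (by norm_num; linarith)
  have hqe : q = Real.exp (T ^ (1 + ε) / 4) := by
    rw [hq, Real.sqrt_eq_iff_mul_self_eq hs0.le (Real.exp_pos _).le, ← Real.exp_add, hs, hsf]
    congr 1
    ring
  set m := ⌊q⌋₊ with hm
  have hmq : (m : ℝ) ≤ q := Nat.floor_le (by linarith)
  have hmq2 : q / 2 ≤ m := by
    have := Nat.lt_floor_add_one q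
    rw [← hm] at this
    linarith
  have hm1R : (1 : ℝ) ≤ m := by linarith
  have hm1 : 1 ≤ m := by exact_mod_cast hm1R
  have hmm : (m : ℝ) ^ 2 ≤ s := by
    rw [← hqq]
    gcongr
  have hqs : q ≤ s := by nlinarith
  set y : ℕ → ℝ := fun i => s ^ 2 + i * s with hy
  have hy1 : ∀ i, s ^ 2 ≤ y i := fun i => by
    simp only [hy]
    have : (0 : ℝ) ≤ i * s := by positivity
    linarith
  have hy2 : ∀ i < m, y i ≤ 2 * s ^ 2 := fun i hi => by
    simp only [hy]
    have h1 : (i : ℝ) ≤ s := by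
      have : (i : ℝ) ≤ m := by exact_mod_cast hi.le
      linarith
    nlinarith
  set S := upto g T with hS
  set U : ℕ → Finset ℕ := fun i => upto g (Real.exp (2 * y i)) \ S with hU
  have hUd : ∀ i < m, Disjoint S (U i) := fun i _ => disjoint_sdiff
  set a : ℕ → ℝ := fun n => 2 * ‖c n‖ with ha
  have ha0 : ∀ n, 0 ≤ a n := fun n => by positivity
  have hTy : ∀ i, T ≤ Real.exp (2 * y i) := by
    intro i
    have h1 : T ≤ T ^ (1 + ε) := by
      have := Real.rpow_le_rpow_of_exponent_le hT1 (show (1 : ℝ) ≤ 1 + ε by linarith)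
      rwa [Real.rpow_one] at this
    have h2 := Real.add_one_le_exp (T ^ (1 + ε))
    rw [← hs2] at h2
    have h3 := Real.add_one_le_exp (2 * y i)
    have h4 := hy1 i
    have h5 : 0 ≤ y i := le_trans (sq_nonneg s) h4
    linarith
  -- decay
  have hTs : T ≤ Real.exp (2 * s) := by
    have h1 : T ≤ T ^ (1 + ε) := by
      have := Real.rpow_le_rpow_of_exponent_le hT1 (show (1 : ℝ) ≤ 1 + ε by linarith)
      rwa [Real.rpow_one] at this
    have h2 : T ^ (1 + ε) ≤ Real.exp (T ^ (1 + ε)) := by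
      linarith [Real.add_one_le_exp (T ^ (1 + ε))]
    have h3 : Real.exp (T ^ (1 + ε)) ≤ Real.exp (2 * s) := by
      apply Real.exp_le_exp.mpr
      have h4 := Real.add_one_le_exp (T ^ (1 + ε) / 2)
      have h5 : s = Real.exp (T ^ (1 + ε) / 2) := rfl
      linarith
    linarith
  have hdec1 : ∀ n ∈ S, ∀ x : ℝ, s ≤ |x| →
      ‖∫ ω, Complex.exp ((x * w n ω : ℝ) * Complex.I) ∂P‖ ≤ C1 / (1 + s) := by
    intro n hn x hx
    have hgn : g n ≤ Real.exp (2 * |x|) := by
      refine le_trans ((mem_upto (h.fin T)).mp hn) (le_trans hTs ?_)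
      apply Real.exp_le_exp.mpr
      linarith
    have h1 := hC1' n x hgn
    rw [pow_one] at h1
    rw [le_div_iff₀ (by linarith)]
    calc ‖∫ ω, Complex.exp ((x * w n ω : ℝ) * Complex.I) ∂P‖ * (1 + s)
        ≤ ‖∫ ω, Complex.exp ((x * w n ω : ℝ) * Complex.I) ∂P‖ * (1 + |x|) :=
          mul_le_mul_of_nonneg_left (by linarith) (norm_nonneg _)
      _ ≤ C1' := h1
      _ ≤ C1 := le_abs_self _
  have hdec2 : ∀ i, ∀ n ∈ U i, ∀ x : ℝ, y i ≤ |x| →
      ‖∫ ω, Complex.exp ((x * w n ω : ℝ) * Complex.I) ∂P‖ ≤ Ck / (1 + s ^ 2) ^ (K + 1) := by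
    intro i n hn x hxi
    have hx : s ^ 2 ≤ |x| := le_trans (hy1 i) hxi
    have hgn : g n ≤ Real.exp (2 * |x|) := by
      have h0 : n ∈ upto g (Real.exp (2 * y i)) := (mem_sdiff.mp hn).1
      refine le_trans ((mem_upto (h.fin _)).mp h0) ?_
      apply Real.exp_le_exp.mpr
      linarith
    have h1 := hCk' n x hgn
    rw [le_div_iff₀ (by positivity)]
    calc ‖∫ ω, Complex.exp ((x * w n ω : ℝ) * Complex.I) ∂P‖ * (1 + s ^ 2) ^ (K + 1)
        ≤ ‖∫ ω, Complex.exp ((x * w n ω : ℝ) * Complex.I) ∂P‖ * (1 + |x|) ^ (K + 1) := by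
          apply mul_le_mul_of_nonneg_left _ (norm_nonneg _)
          gcongr
      _ ≤ Ck' := h1
      _ ≤ Ck := le_abs_self _
  have hTimes : Times P w S D m y s (C1 / (1 + s)) := by
    refine ⟨hdec1, by positivity, ?_, ?_⟩
    · intro i hi j hj hij p r hp hr hpr
      refine times_sep (L := D + 1) ?_ hmm hi hj hij p r (by exact_mod_cast hp)
        (by exact_mod_cast hr) hpr
      push_cast
      exact hsD
    · intro i _ p _ hp0
      exact times_sep1 hs1 i p hp0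
  -- the tail
  have hf00 : 0 ≤ f T := by
    have := hf T ∅ (disjoint_empty_right _)
    simpa using this
  have hv0 : 0 ≤ v T := by
    simp only [hv]
    positivity
  have hvb : ∀ i < m, ∫ ω, RR g (fun n => (c n).arg) a w (U i) (y i) ω ^ 2 ∂P ≤ v T := by
    intro i hi
    have hyi0 : 0 ≤ y i := le_trans (sq_nonneg s) (hy1 i)
    refine le_trans (tail_second hN.indep hN.meas ha0 (U i) (hdec2 i) (by positivity)
      (by rw [abs_of_nonneg hyi0])) ?_
    simp only [hv]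
    apply add_le_add
    · have h1 : ∑ n ∈ U i, a n ^ 2 = 4 * ∑ n ∈ U i, ‖c n‖ ^ 2 := by
        rw [mul_sum]
        apply sum_congr rfl
        intro n _
        simp only [ha]
        ring
      rw [h1]
      exact mul_le_mul_of_nonneg_left (hf T (U i) (hUd i hi)) (by norm_num)
    · apply pow_le_pow_left₀
      · have : 0 ≤ ∑ n ∈ U i, a n := sum_nonneg fun n _ => ha0 n
        positivity
      · have h1 : ∑ n ∈ U i, a n ≤ Ch * (4 * s ^ 2) ^ K := by
          have h2 : ∑ n ∈ U i, a n ≤ height g c (Real.exp (2 * y i)) := by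
            unfold height
            rw [mul_sum]
            exact sum_le_sum_of_subset_of_nonneg sdiff_subset fun n _ _ => ha0 n
          have hexp2 : 2 ≤ Real.exp (2 * y i) := by
            have h3 := Real.add_one_le_exp (2 * y i)
            have h4 := hy1 i
            nlinarith
          have h5 := hCh' _ hexp2
          rw [Real.log_exp] at h5
          calc ∑ n ∈ U i, a n ≤ Ch' * (2 * y i) ^ K := le_trans h2 h5
            _ ≤ Ch * (2 * y i) ^ K := mul_le_mul_of_nonneg_right (le_abs_self _) (by positivity)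
            _ ≤ Ch * (4 * s ^ 2) ^ K := by
                apply mul_le_mul_of_nonneg_left _ hCh0
                have := hy2 i hi
                exact pow_le_pow_left₀ (by positivity) (by linarith) K
        have h6 : (4 * s ^ 2) ^ K ≤ 4 ^ K * (1 + s ^ 2) ^ K := by
          rw [mul_pow]
          gcongr
          linarith
        calc Ck / (1 + s ^ 2) ^ (K + 1) * ∑ n ∈ U i, a n
            ≤ Ck / (1 + s ^ 2) ^ (K + 1) * (Ch * (4 ^ K * (1 + s ^ 2) ^ K)) := by
              apply mul_le_mul_of_nonneg_left _ (by positivity)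
              exact le_trans h1 (mul_le_mul_of_nonneg_left h6 hCh0)
          _ = Ck * Ch * 4 ^ K / (1 + s ^ 2) := by
              rw [pow_succ]
              field_simp
          _ = b3 T := rfl
  -- main bound
  have hκ1 : |1 - η| ≤ 1 := by
    rw [abs_of_pos (by linarith)]
    linarith
  have hPB := prob_bound (g := g) (α := fun n => (c n).arg) (S := S) hN.indep hN.meas ha0 hκ1 hρd
    hρ0 hρ1 hTimes hm1 U hUd hv0 hvb
  -- the set
  have hsub : {ω | ¬ ∃ y : ℝ, Real.exp (T ^ (1 + ε)) ≤ y ∧ y ≤ 2 * Real.exp (T ^ (1 + ε)) ∧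
        (1 - η) * height g c T - 1 ≤ osc g c (fun n => w n ω) y} ⊆
      {ω | ∀ i < m, RR g (fun n => (c n).arg) a w S (y i) ω +
        RR g (fun n => (c n).arg) a w (U i) (y i) ω ≤ (1 - η) * ∑ n ∈ S, a n - 1} := by
    intro ω hω i hi
    by_contra hcon
    apply hω
    refine ⟨y i, by rw [← hs2]; exact hy1 i, by rw [← hs2]; exact hy2 i hi, ?_⟩
    rw [osc_eq w h.fin (hTy i) ω]
    have e1 : height g c T = ∑ n ∈ S, a n := by
      unfold height
      rw [mul_sum]
    rw [e1]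
    exact (not_le.mp hcon).le
  refine le_trans (measureReal_mono hsub) (le_trans hPB ?_)
  -- K^2 / m
  set N := #S with hNd
  have hN1 : (N : ℝ) ≤ CN * T ^ (1 + ε / 2) := by
    refine le_trans (hCN' T hT1) ?_
    exact mul_le_mul_of_nonneg_right (le_abs_self _) (Real.rpow_nonneg (by linarith) _)
  have hlogM : 0 ≤ Real.log M := Real.log_nonneg (by linarith)
  have hK2 : ((2 * ((D : ℝ) + 1)) ^ N) ^ 2 ≤
      Real.exp ((2 * CN * Real.log M) * T ^ (1 + ε / 2)) := by
    rw [← hM]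
    have e1 : (M ^ N) ^ 2 = Real.exp (2 * (N * Real.log M)) := by
      have e0 : M ^ N = Real.exp (N * Real.log M) := by
        rw [Real.exp_nat_mul, Real.exp_log (by linarith)]
      rw [e0, ← Real.exp_nat_mul]
      norm_num
    rw [e1]
    apply Real.exp_le_exp.mpr
    nlinarith [mul_le_mul_of_nonneg_right hN1 hlogM]
  have hmpos : (0 : ℝ) < m := by linarith
  have hK2m : ((2 * ((D : ℝ) + 1)) ^ N) ^ 2 / m ≤ b1 T := by
    simp only [hb1]
    rw [Real.exp_sub, ← hqe, div_le_iff₀ hmpos]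
    have hq0 : 0 < q := by linarith
    calc ((2 * ((D : ℝ) + 1)) ^ N) ^ 2 ≤ Real.exp ((2 * CN * Real.log M) * T ^ (1 + ε / 2)) := hK2
      _ = 2 * (Real.exp ((2 * CN * Real.log M) * T ^ (1 + ε / 2)) / q) * (q / 2) := by
          field_simp
      _ ≤ _ := mul_le_mul_of_nonneg_left hmq2 (by positivity)
  -- delta
  have hNK : (N : ℝ) ≤ ((2 * ((D : ℝ) + 1)) ^ N) ^ 2 := by
    have h1 : (N : ℝ) ≤ 2 ^ N := by exact_mod_cast Nat.lt_two_pow_self.le
    have h2 : (2 : ℝ) ^ N ≤ (2 * ((D : ℝ) + 1)) ^ N := by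
      apply pow_le_pow_left₀ (by norm_num)
      linarith
    have h3 : (1 : ℝ) ≤ (2 * ((D : ℝ) + 1)) ^ N := one_le_pow₀ (by linarith)
    nlinarith
  have hNψ : (N : ℝ) * (M * M * (C1 / (1 + s))) ≤ b2 T := by
    simp only [hb2]
    have h1 : (N : ℝ) / (1 + s) ≤ b1 T := by
      refine le_trans ?_ hK2m
      rw [div_le_div_iff₀ (by linarith) hmpos]
      apply mul_le_mul hNK _ hmpos.le (by positivity)
      linarith
    calc (N : ℝ) * (M * M * (C1 / (1 + s))) = M * M * C1 * (N / (1 + s)) := by ring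
      _ ≤ _ := mul_le_mul_of_nonneg_left h1 (by positivity)
  have hδb : del S D (C1 / (1 + s)) ≤ 2 * b2 T := by
    unfold del
    have e1 : 2 * ((D : ℝ) + 1) * (2 * (D + 1)) * (C1 / (1 + s)) = M * M * (C1 / (1 + s)) := by
      rw [hM]
    rw [e1]
    have h1 := pow_sub_one_le (ε := M * M * (C1 / (1 + s))) (by positivity) N (le_trans hNψ hb21)
    linarith
  have hδ0 : 0 ≤ del S D (C1 / (1 + s)) := del_nonneg S D (by positivity)
  have hKm0 : 0 ≤ ((2 * ((D : ℝ) + 1)) ^ N) ^ 2 / m := by positivity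
  have g1 : 6 * del S D (C1 / (1 + s)) / ρ ^ 2 ≤ 6 * (2 * b2 T) / ρ ^ 2 := by gcongr
  have g2 : 2 * (((2 * ((D : ℝ) + 1)) ^ N) ^ 2 / m) / ρ ^ 2 ≤ 2 * b1 T / ρ ^ 2 := by gcongr
  have g3 : 2 * v T * (((2 * ((D : ℝ) + 1)) ^ N) ^ 2 / m + 1 + del S D (C1 / (1 + s))) ≤
      2 * v T * (b1 T + 1 + 2 * b2 T) := by gcongr
  linarith

/-- The lower half, in any universe. -/
theorem lower_of {g : ℕ → ℝ} {c : ℕ → ℂ} (h : Data g c) {w : ℕ → Ω → ℝ} {δ : ℝ}
    (hN : Noise P g w δ) {ε η : ℝ} (hε : 0 < ε) (hη : 0 < η) (hη1 : η < 1)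
    (T : ℕ → ℝ) (hT : Tendsto T atTop atTop) :
    ∀ᵐ ω ∂P, ∃ᶠ k : ℕ in atTop, ∃ y : ℝ, Real.exp (T k ^ (1 + ε)) ≤ y ∧
      y ≤ 2 * Real.exp (T k ^ (1 + ε)) ∧
      (1 - η) * height g c (T k) - 1 ≤ osc g c (fun n => w n ω) y := by
  obtain ⟨b, hb, hP⟩ := lower_prob h hN hε hη hη1
  set G : ℝ → Set Ω := fun T => {ω | ¬ ∃ y : ℝ, Real.exp (T ^ (1 + ε)) ≤ y ∧
    y ≤ 2 * Real.exp (T ^ (1 + ε)) ∧
    (1 - η) * height g c T - 1 ≤ osc g c (fun n => w n ω) y} with hG
  have hbk : Tendsto (fun k => b (T k)) atTop (nhds 0) := hb.comp hT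
  have hPk : ∀ᶠ k in atTop, P.real (G (T k)) ≤ b (T k) := hT.eventually hP
  have h0 : ∀ k0 : ℕ, P (⋂ k ∈ Set.Ici k0, G (T k)) = 0 := by
    intro k0
    have h1 : P.real (⋂ k ∈ Set.Ici k0, G (T k)) ≤ 0 := by
      apply ge_of_tendsto hbk
      filter_upwards [hPk, eventually_ge_atTop k0] with k hk hk0
      refine le_trans (measureReal_mono ?_) hk
      exact Set.biInter_subset_of_mem hk0
    have h2 : P.real (⋂ k ∈ Set.Ici k0, G (T k)) = 0 := le_antisymm h1 measureReal_nonneg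
    rwa [measureReal_eq_zero_iff] at h2
  have h3 : ∀ᵐ ω ∂P, ∀ k0 : ℕ, ω ∉ ⋂ k ∈ Set.Ici k0, G (T k) :=
    ae_all_iff.mpr fun k0 => measure_eq_zero_iff_ae_notMem.mp (h0 k0)
  filter_upwards [h3] with ω hω
  rw [frequently_atTop]
  intro k0
  have h4 := hω k0
  simp only [Set.mem_iInter, not_forall] at h4
  obtain ⟨k, hk, hk2⟩ := h4
  refine ⟨k, hk, ?_⟩
  by_contra hcon
  exact hk2 hcon

theorem lower : Lower := by
  intro g c h Ω _ P _ w δ hN ε η hε hη hη1 T hT
  exact lower_of h hN hε hη hη1 T hT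

end Pool.Agent.Helper51.DO
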