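import Mathlib

/-!
# Displaced ordinates: common definitions (MP_a499ba_nt)

`g n` are the ordinates, `c n` the coefficients, `w n` the random displacements;
`osc` is the displaced version of `M(e^y) / e^{y/2}`.
Author: helper51.
-/

set_option autoImplicit false

namespace Pool.Agent.Helper51.DO

open MeasureTheory ProbabilityTheory Filter Finset

open Classical in
/-- The indices of the ordinates up to `T`. -/
noncomputable def upto (g : ℕ → ℝ) (T : ℝ) : Finset ℕ :=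
  if h : {n | g n ≤ T}.Finite then h.toFinset else ∅

/-- `2 ∑_{g n ≤ T} |c n|`. -/
noncomputable def height (g : ℕ → ℝ) (c : ℕ → ℂ) (T : ℝ) : ℝ := 2 * ∑ n ∈ upto g T, ‖c n‖

/-- The displaced oscillating function `2 Re ∑_{g n ≤ e^{2 y}} c n e^{i (g n + w n) y}`. -/
noncomputable def osc (g : ℕ → ℝ) (c : ℕ → ℂ) (w : ℕ → ℝ) (y : ℝ) : ℝ :=
  2 * ∑ n ∈ upto g (Real.exp (2 * y)), (c n * Complex.exp (((g n + w n) * y : ℝ) * Complex.I)).re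

/-- The assumptions on the data. -/
structure Data (g : ℕ → ℝ) (c : ℕ → ℂ) : Prop where
  pos : ∀ n, 0 < g n
  fin : ∀ T, {n | g n ≤ T}.Finite
  count : ∀ ε : ℝ, 0 < ε → ∃ C : ℝ, ∀ T : ℝ, 1 ≤ T → ((upto g T).card : ℝ) ≤ C * T ^ (1 + ε)
  square : ∀ ε : ℝ, 0 < ε → ∃ C : ℝ, ∀ T : ℝ, 1 ≤ T →
    ∑ n ∈ upto g T, (g n * ‖c n‖) ^ 2 ≤ C * T ^ (1 + ε)
  size : ∃ (K : ℕ) (C : ℝ), ∀ T : ℝ, 2 ≤ T → height g c T ≤ C * Real.log T ^ K

/-- The assumptions on the displacements: independent, bounded by `δ`, characteristic functions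
decaying faster than every power, uniformly, in the range `g n ≤ e^{2|t|}`. -/
structure Noise {Ω : Type*} [MeasurableSpace Ω] (P : Measure Ω) (g : ℕ → ℝ) (w : ℕ → Ω → ℝ)
    (δ : ℝ) : Prop where
  meas : ∀ n, Measurable (w n)
  indep : iIndepFun w P
  bdd : ∀ n ω, |w n ω| ≤ δ
  decay : ∀ K : ℕ, ∃ C : ℝ, ∀ (n : ℕ) (t : ℝ), g n ≤ Real.exp (2 * |t|) →
    ‖∫ ω, Complex.exp ((t * w n ω : ℝ) * Complex.I) ∂P‖ * (1 + |t|) ^ K ≤ C

theorem mem_upto {g : ℕ → ℝ} {T : ℝ} (h : {n | g n ≤ T}.Finite) {n : ℕ} :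
    n ∈ upto g T ↔ g n ≤ T := by
  unfold upto
  rw [dif_pos h]
  simp

theorem upto_mono {g : ℕ → ℝ} (h : ∀ T, {n | g n ≤ T}.Finite) {S T : ℝ} (hST : S ≤ T) :
    upto g S ⊆ upto g T := by
  intro n hn
  rw [mem_upto (h T)]
  exact le_trans ((mem_upto (h S)).mp hn) hST

theorem height_mono {g : ℕ → ℝ} (c : ℕ → ℂ) (h : ∀ T, {n | g n ≤ T}.Finite) {S T : ℝ}
    (hST : S ≤ T) : height g c S ≤ height g c T := by
  unfold height
  have := sum_le_sum_of_subset_of_nonneg (upto_mono h hST) (f := fun n => ‖c n‖)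
    (fun n _ _ => norm_nonneg _)
  linarith

theorem height_nonneg (g : ℕ → ℝ) (c : ℕ → ℂ) (T : ℝ) : 0 ≤ height g c T := by
  unfold height
  have : 0 ≤ ∑ n ∈ upto g T, ‖c n‖ := sum_nonneg fun n _ => norm_nonneg _
  linarith

/-- TARGET of the upper half. -/
def Upper : Prop := ∀ (g : ℕ → ℝ) (c : ℕ → ℂ), Data g c →
  ∀ (Ω : Type) (_ : MeasurableSpace Ω) (P : Measure Ω) (_ : IsProbabilityMeasure P)
    (w : ℕ → Ω → ℝ) (δ : ℝ), Noise P g w δ → ∀ ε : ℝ, 0 < ε →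
    ∀ᵐ ω ∂P, ∀ᶠ y : ℝ in atTop, |osc g c (fun n => w n ω) y| ≤ height g c (Real.log y ^ (1 + ε)) + 1

/-- TARGET of the lower half. -/
def Lower : Prop := ∀ (g : ℕ → ℝ) (c : ℕ → ℂ), Data g c →
  ∀ (Ω : Type) (_ : MeasurableSpace Ω) (P : Measure Ω) (_ : IsProbabilityMeasure P)
    (w : ℕ → Ω → ℝ) (δ : ℝ), Noise P g w δ → ∀ ε η : ℝ, 0 < ε → 0 < η → η < 1 →
    ∀ T : ℕ → ℝ, Tendsto T atTop atTop →
    ∀ᵐ ω ∂P, ∃ᶠ k : ℕ in atTop, ∃ y : ℝ, Real.exp (T k ^ (1 + ε)) ≤ y ∧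
      y ≤ 2 * Real.exp (T k ^ (1 + ε)) ∧
      (1 - η) * height g c (T k) - 1 ≤ osc g c (fun n => w n ω) y

end Pool.Agent.Helper51.DO
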