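import Pool.Agent.Helper51.DO.Defs

/-!
# Displaced ordinates, lower half 1: trigonometric polynomials
Author: helper51.
-/

set_option autoImplicit false

namespace Pool.Agent.Helper51.DO

open MeasureTheory ProbabilityTheory Filter Finset

/-- `f` is a real trigonometric polynomial of degree at most `L`, with sum of the absolute values of
the coefficients at most `S` and constant term `f0`. -/
def TP (f : ℝ → ℝ) (L : ℕ) (S f0 : ℝ) : Prop :=
  ∃ p : ℤ → ℂ, (∀ θ : ℝ, (f θ : ℂ) =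
      ∑ m ∈ Icc (-(L : ℤ)) L, p m * Complex.exp (((m : ℝ) * θ : ℝ) * Complex.I)) ∧
    ∑ m ∈ Icc (-(L : ℤ)) L, ‖p m‖ ≤ S ∧ p 0 = (f0 : ℂ)

theorem TP.of_sum {ι : Type*} (J : Finset ι) (u : ι → ℂ) (e : ι → ℤ) (L : ℕ)
    (he : ∀ x ∈ J, |e x| ≤ L) (f : ℝ → ℝ)
    (hf : ∀ θ : ℝ, (f θ : ℂ) = ∑ x ∈ J, u x * Complex.exp (((e x : ℝ) * θ : ℝ) * Complex.I))
    (S f0 : ℝ) (hS : ∑ x ∈ J, ‖u x‖ ≤ S) (h0 : ∑ x ∈ J with e x = 0, u x = (f0 : ℂ)) :
    TP f L S f0 := by
  have hmap : ∀ x ∈ J, e x ∈ Icc (-(L : ℤ)) L := fun x hx =>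
    mem_Icc.mpr (abs_le.mp (he x hx))
  refine ⟨fun m => ∑ x ∈ J with e x = m, u x, fun θ => ?_, ?_, h0⟩
  · rw [hf, ← sum_fiberwise_of_maps_to hmap]
    apply sum_congr rfl
    intro m _
    rw [sum_mul]
    apply sum_congr rfl
    intro x hx
    rw [(mem_filter.mp hx).2]
  · calc ∑ m ∈ Icc (-(L : ℤ)) L, ‖∑ x ∈ J with e x = m, u x‖
        ≤ ∑ m ∈ Icc (-(L : ℤ)) L, ∑ x ∈ J with e x = m, ‖u x‖ :=
          sum_le_sum fun m _ => norm_sum_le _ _
      _ = ∑ x ∈ J, ‖u x‖ := sum_fiberwise_of_maps_to hmap _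
      _ ≤ S := hS

/-- The Fejer kernel. -/
noncomputable def fej (D : ℕ) (θ : ℝ) : ℝ :=
  ‖∑ j ∈ range (D + 1), Complex.exp (((j : ℝ) * θ : ℝ) * Complex.I)‖ ^ 2 / (D + 1)

theorem fej_nonneg (D : ℕ) (θ : ℝ) : 0 ≤ fej D θ := by
  unfold fej
  positivity

theorem fej_le (D : ℕ) (θ : ℝ) : fej D θ ≤ D + 1 := by
  unfold fej
  have h1 : ‖∑ j ∈ range (D + 1), Complex.exp (((j : ℝ) * θ : ℝ) * Complex.I)‖ ≤ D + 1 := by
    calc _ ≤ ∑ j ∈ range (D + 1), ‖Complex.exp (((j : ℝ) * θ : ℝ) * Complex.I)‖ := norm_sum_le _ _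
      _ = ∑ j ∈ range (D + 1), (1 : ℝ) := sum_congr rfl fun j _ => Complex.norm_exp_ofReal_mul_I _
      _ = D + 1 := by simp
  rw [div_le_iff₀ (by positivity)]
  calc _ ≤ ((D : ℝ) + 1) ^ 2 := by gcongr
    _ = _ := by ring

theorem fej_eq (D : ℕ) (θ : ℝ) : (fej D θ : ℂ) =
    ∑ x ∈ range (D + 1) ×ˢ range (D + 1), (1 / ((D : ℂ) + 1)) *
      Complex.exp (((((x.1 : ℤ) - (x.2 : ℤ) : ℤ) : ℝ) * θ : ℝ) * Complex.I) := by
  unfold fej
  rw [Complex.ofReal_div, Complex.ofReal_pow, ← Complex.mul_conj', map_sum, sum_mul_sum,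
    sum_product, div_eq_mul_one_div, mul_comm, mul_sum]
  push_cast
  apply sum_congr rfl
  intro a _
  rw [mul_sum]
  apply sum_congr rfl
  intro b _
  congr 1
  rw [← Complex.exp_conj, ← Complex.exp_add]
  congr 1
  simp
  ring

theorem count_diff (D : ℕ) (s : ℤ) (hs : |s| ≤ 1) :
    (#({x ∈ range (D + 1) ×ˢ range (D + 1) | (x.1 : ℤ) - (x.2 : ℤ) = s}) : ℤ) = D + 1 - |s| := by
  have h3 : s = -1 ∨ s = 0 ∨ s = 1 := by
    rw [abs_le] at hs
    omega
  rcases h3 with rfl | rfl | rfl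
  · have : ({x ∈ range (D + 1) ×ˢ range (D + 1) | (x.1 : ℤ) - (x.2 : ℤ) = -1}) =
        (range D).image fun b => (b, b + 1) := by
      ext ⟨a, b⟩
      simp only [mem_filter, mem_product, mem_range, mem_image, Prod.mk.injEq]
      constructor
      · rintro ⟨⟨h1, h2⟩, h3⟩
        exact ⟨a, by omega, rfl, by omega⟩
      · rintro ⟨c, h1, rfl, rfl⟩
        refine ⟨⟨by omega, by omega⟩, by push_cast; ring⟩
    rw [this, card_image_of_injective _ (fun a b h => (Prod.mk.inj h).1), card_range]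
    simp
  · have : ({x ∈ range (D + 1) ×ˢ range (D + 1) | (x.1 : ℤ) - (x.2 : ℤ) = 0}) =
        (range (D + 1)).image fun b => (b, b) := by
      ext ⟨a, b⟩
      simp only [mem_filter, mem_product, mem_range, mem_image, Prod.mk.injEq]
      constructor
      · rintro ⟨⟨h1, h2⟩, h3⟩
        exact ⟨a, by omega, rfl, by omega⟩
      · rintro ⟨c, h1, rfl, rfl⟩
        refine ⟨⟨by omega, by omega⟩, by ring⟩
    rw [this, card_image_of_injective _ (fun a b h => (Prod.mk.inj h).1), card_range]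
    simp
  · have : ({x ∈ range (D + 1) ×ˢ range (D + 1) | (x.1 : ℤ) - (x.2 : ℤ) = 1}) =
        (range D).image fun b => (b + 1, b) := by
      ext ⟨a, b⟩
      simp only [mem_filter, mem_product, mem_range, mem_image, Prod.mk.injEq]
      constructor
      · rintro ⟨⟨h1, h2⟩, h3⟩
        exact ⟨b, by omega, by omega, rfl⟩
      · rintro ⟨c, h1, rfl, rfl⟩
        refine ⟨⟨by omega, by omega⟩, by push_cast; ring⟩
    rw [this, card_image_of_injective _ (fun a b h => (Prod.mk.inj h).2), card_range]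
    simp

theorem fej_TP (D : ℕ) : TP (fej D) (D + 1) (2 * (D + 1)) 1 := by
  have hD : ((D : ℂ) + 1) ≠ 0 := by exact_mod_cast Nat.succ_ne_zero D
  have hDr : (0 : ℝ) < (D : ℝ) + 1 := by positivity
  refine TP.of_sum (range (D + 1) ×ˢ range (D + 1)) (fun _ => 1 / ((D : ℂ) + 1))
    (fun x => (x.1 : ℤ) - (x.2 : ℤ)) (D + 1) ?_ _ (fej_eq D) _ _ ?_ ?_
  · rintro ⟨a, b⟩ hx
    simp only [mem_product, mem_range] at hx
    rw [abs_le]
    constructor <;> push_cast <;> omega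
  · have h1 : ‖(1 / ((D : ℂ) + 1))‖ = 1 / ((D : ℝ) + 1) := by
      rw [norm_div, norm_one]
      congr 1
      have : ((D : ℂ) + 1) = (((D : ℝ) + 1 : ℝ) : ℂ) := by push_cast; ring
      rw [this, Complex.norm_real, Real.norm_of_nonneg hDr.le]
    rw [sum_const, card_product, card_range, h1, nsmul_eq_mul]
    push_cast
    have : ((D : ℝ) + 1) * (D + 1) * (1 / (D + 1)) = D + 1 := by field_simp
    rw [this]
    linarith
  · rw [sum_const, nsmul_eq_mul]
    have h2 := count_diff D 0 (by simp)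
    have h3 : ((#({x ∈ range (D + 1) ×ˢ range (D + 1) | (x.1 : ℤ) - (x.2 : ℤ) = 0}) : ℕ) : ℂ)
        = (D : ℂ) + 1 := by
      have := congrArg (fun z : ℤ => (z : ℂ)) h2
      simpa using this
    rw [h3]
    field_simp
    simp

/-- The kernel with the weight `cos θ - c`. -/
noncomputable def qf (D : ℕ) (c : ℝ) (θ : ℝ) : ℝ := fej D θ * (Real.cos θ - c)

theorem qf_abs_le (D : ℕ) (c : ℝ) (hc : |c| ≤ 1) (θ : ℝ) : |qf D c θ| ≤ 2 * (D + 1) := by
  unfold qf
  rw [abs_mul, abs_of_nonneg (fej_nonneg D θ)]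
  have h1 := fej_le D θ
  have h2 : |Real.cos θ - c| ≤ 2 := by
    have h3 := Real.abs_cos_le_one θ
    calc |Real.cos θ - c| ≤ |Real.cos θ| + |c| := abs_sub _ _
      _ ≤ 2 := by linarith
  calc fej D θ * |Real.cos θ - c| ≤ (D + 1) * 2 := by
        apply mul_le_mul h1 h2 (abs_nonneg _) (by positivity)
    _ = _ := by ring

theorem qf_TP (D : ℕ) (c : ℝ) (hc : |c| ≤ 1) :
    TP (qf D c) (D + 1) (2 * (D + 1)) ((D : ℝ) / (D + 1) - c) := by
  have hD : ((D : ℂ) + 1) ≠ 0 := by exact_mod_cast Nat.succ_ne_zero D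
  have hDr : (0 : ℝ) < (D : ℝ) + 1 := by positivity
  have h1 : ‖(1 / ((D : ℂ) + 1))‖ = 1 / ((D : ℝ) + 1) := by
    rw [norm_div, norm_one]
    congr 1
    have : ((D : ℂ) + 1) = (((D : ℝ) + 1 : ℝ) : ℂ) := by push_cast; ring
    rw [this, Complex.norm_real, Real.norm_of_nonneg hDr.le]
  have hcount : ∀ s : ℤ, |s| ≤ 1 →
      ((#({x ∈ range (D + 1) ×ˢ range (D + 1) | (x.1 : ℤ) - (x.2 : ℤ) = s}) : ℕ) : ℂ)
        = (D : ℂ) + 1 - |s| := by
    intro s hs
    have := congrArg (fun z : ℤ => (z : ℂ)) (count_diff D s hs)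
    simpa using this
  refine TP.of_sum ((range (D + 1) ×ˢ range (D + 1)) ×ˢ (univ : Finset (Fin 3)))
    (fun x => (1 / ((D : ℂ) + 1)) * (![1 / 2, 1 / 2, -(c : ℂ)] x.2))
    (fun x => ((x.1.1 : ℤ) - (x.1.2 : ℤ)) + (![1, -1, 0] x.2)) (D + 1) ?_ _ ?_ _ _ ?_ ?_
  · rintro ⟨⟨a, b⟩, i⟩ hx
    simp only [mem_product, mem_range, mem_univ, and_true] at hx
    rw [abs_le]
    fin_cases i <;> simp <;> omega
  · intro θ
    rw [sum_product]
    unfold qf
    rw [Complex.ofReal_mul, fej_eq, sum_mul]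
    apply sum_congr rfl
    rintro ⟨a, b⟩ _
    rw [Fin.sum_univ_three]
    simp only [Matrix.cons_val_zero, Matrix.cons_val_one, Matrix.cons_val_two, Matrix.head_cons,
      Matrix.tail_cons, Complex.ofReal_sub, Complex.ofReal_cos, Complex.cos]
    push_cast
    have e1 : Complex.exp (((a : ℂ) - b + 1) * θ * Complex.I) =
        Complex.exp (((a : ℂ) - b) * θ * Complex.I) * Complex.exp (θ * Complex.I) := by
      rw [← Complex.exp_add]
      congr 1
      ring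
    have e2 : Complex.exp (((a : ℂ) - b + -1) * θ * Complex.I) =
        Complex.exp (((a : ℂ) - b) * θ * Complex.I) * Complex.exp (-θ * Complex.I) := by
      rw [← Complex.exp_add]
      congr 1
      ring
    rw [e1, e2]
    simp
    ring
  · rw [sum_product]
    have : ∀ x ∈ range (D + 1) ×ˢ range (D + 1), ∑ y : Fin 3,
        ‖(1 / ((D : ℂ) + 1)) * (![1 / 2, 1 / 2, -(c : ℂ)] y)‖ ≤ 2 * (1 / ((D : ℝ) + 1)) := by
      intro x _
      rw [Fin.sum_univ_three]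
      simp only [norm_mul, h1]
      simp
      have h9 : 0 ≤ ((D : ℝ) + 1)⁻¹ := by positivity
      nlinarith
    calc _ ≤ ∑ x ∈ range (D + 1) ×ˢ range (D + 1), 2 * (1 / ((D : ℝ) + 1)) := sum_le_sum this
      _ = 2 * (D + 1) := by
          rw [sum_const, card_product, card_range, nsmul_eq_mul]
          push_cast
          field_simp
      _ ≤ _ := le_rfl
  · rw [sum_filter, sum_product, sum_comm, Fin.sum_univ_three]
    simp only [Matrix.cons_val_zero, Matrix.cons_val_one, Matrix.cons_val_two, Matrix.head_cons,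
      Matrix.tail_cons]
    have k1 : ∀ s : ℤ, ∀ z : ℂ, |s| ≤ 1 → ∑ x ∈ range (D + 1) ×ˢ range (D + 1),
        (if ((x.1 : ℤ) - (x.2 : ℤ)) + s = 0 then z else 0) = ((D : ℂ) + 1 - |s|) * z := by
      intro s z hs
      have hfe : ({x ∈ range (D + 1) ×ˢ range (D + 1) | ((x.1 : ℤ) - (x.2 : ℤ)) + s = 0}) =
          ({x ∈ range (D + 1) ×ˢ range (D + 1) | (x.1 : ℤ) - (x.2 : ℤ) = -s}) := by
        apply filter_congr
        intro x _
        constructor <;> intro h <;> linarith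
      rw [← sum_filter, sum_const, nsmul_eq_mul, hfe]
      congr 1
      have := hcount (-s) (by rwa [abs_neg])
      rw [abs_neg] at this
      rw [← this]
    have a1 := k1 1 (1 / ((D : ℂ) + 1) * (1 / 2)) (by simp)
    have a2 := k1 (-1) (1 / ((D : ℂ) + 1) * (1 / 2)) (by simp)
    have a3 := k1 0 (1 / ((D : ℂ) + 1) * (-(c : ℂ))) (by simp)
    rw [a1, a2, a3]
    have b1 : |(1 : ℤ)| = 1 := by norm_num
    have b2 : |(-1 : ℤ)| = 1 := by norm_num
    have b3 : |(0 : ℤ)| = 0 := by norm_num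
    rw [b1, b2, b3]
    push_cast
    field_simp
    ring

end Pool.Agent.Helper51.DO
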