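import Pool.Agent.Helper51.DO.L1

/-!
# Displaced ordinates, lower half 2: expectations of products
Author: helper51.
-/

set_option autoImplicit false

namespace Pool.Agent.Helper51.DO

open MeasureTheory ProbabilityTheory Filter Finset

variable {Ω : Type*} [MeasurableSpace Ω] {P : Measure Ω} [IsProbabilityMeasure P]

theorem TP.continuous {f : ℝ → ℝ} {L : ℕ} {S f0 : ℝ} (hf : TP f L S f0) : Continuous f := by
  obtain ⟨p, hp, -, -⟩ := hf
  have h1 : (fun θ => ((f θ : ℝ) : ℂ)) = fun θ : ℝ =>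
      ∑ m ∈ Icc (-(L : ℤ)) L, p m * Complex.exp (((m : ℝ) * θ : ℝ) * Complex.I) := funext hp
  have h2 : Continuous fun θ : ℝ => ((f θ : ℝ) : ℂ) := by
    rw [h1]
    fun_prop
  exact (Complex.continuous_re.comp h2)

theorem TP.nonneg_sum {f : ℝ → ℝ} {L : ℕ} {S f0 : ℝ} (hf : TP f L S f0) : 0 ≤ S := by
  obtain ⟨p, -, h, -⟩ := hf
  exact le_trans (sum_nonneg fun _ _ => norm_nonneg _) h

theorem one_TP : TP (fun _ => 1) 0 1 1 :=
  ⟨fun m => if m = 0 then 1 else 0, fun θ => by simp, by simp, by simp⟩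

theorem integrable_exp {w : Ω → ℝ} (hw : Measurable w) (t : ℝ) :
    Integrable (fun ω => Complex.exp ((t * w ω : ℝ) * Complex.I)) P := by
  refine Integrable.of_bound (C := 1) ?_ (ae_of_all _ fun ω => ?_)
  · exact (by fun_prop : Measurable fun ω => Complex.exp ((t * w ω : ℝ) * Complex.I)).aestronglyMeasurable
  · rw [Complex.norm_exp_ofReal_mul_I]

theorem factor {w : Ω → ℝ} (hw : Measurable w) {f f' : ℝ → ℝ} {L L' : ℕ} {S S' f0 f0' ψ τ : ℝ}
    (hf : TP f L S f0) (hf' : TP f' L' S' f0')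
    (hψ : ∀ t : ℝ, τ ≤ |t| → ‖∫ ω, Complex.exp ((t * w ω : ℝ) * Complex.I) ∂P‖ ≤ ψ) (hψ0 : 0 ≤ ψ)
    (γ y y' α : ℝ) (hsep : ∀ a b : ℤ, |a| ≤ L → |b| ≤ L' → (a ≠ 0 ∨ b ≠ 0) → τ ≤ |a * y + b * y'|) :
    |∫ ω, f ((γ + w ω) * y + α) * f' ((γ + w ω) * y' + α) ∂P - f0 * f0'| ≤ S * S' * ψ := by
  obtain ⟨p, hp, hpS, hp0⟩ := hf
  obtain ⟨q, hq, hqS, hq0⟩ := hf'
  have hSS : (0 : ℝ) ≤ S := le_trans (sum_nonneg fun _ _ => norm_nonneg _) hpS
  set I1 := Icc (-(L : ℤ)) L with hI1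
  set I2 := Icc (-(L' : ℤ)) L' with hI2
  set J := I1 ×ˢ I2 with hJ
  -- the coefficient of a pair
  set u : ℤ × ℤ → ℂ := fun x => p x.1 * q x.2 *
    Complex.exp ((((x.1 : ℝ) + x.2) * α + ((x.1 : ℝ) * y + x.2 * y') * γ : ℝ) * Complex.I) with hu
  have hexp : ∀ ω, ((f ((γ + w ω) * y + α) * f' ((γ + w ω) * y' + α) : ℝ) : ℂ) =
      ∑ x ∈ J, u x * Complex.exp ((((x.1 : ℝ) * y + x.2 * y') * w ω : ℝ) * Complex.I) := by
    intro ω
    rw [Complex.ofReal_mul, hp, hq, sum_mul_sum, hJ, sum_product]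
    apply sum_congr rfl
    intro a _
    apply sum_congr rfl
    intro b _
    have e1 : Complex.exp (((a : ℝ) * ((γ + w ω) * y + α) : ℝ) * Complex.I) *
        Complex.exp (((b : ℝ) * ((γ + w ω) * y' + α) : ℝ) * Complex.I) =
        Complex.exp ((((a : ℝ) + b) * α + ((a : ℝ) * y + b * y') * γ : ℝ) * Complex.I) *
        Complex.exp ((((a : ℝ) * y + b * y') * w ω : ℝ) * Complex.I) := by
      rw [← Complex.exp_add, ← Complex.exp_add]
      congr 1
      push_cast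
      ring
    simp only [hu]
    calc _ = p a * q b * (Complex.exp (((a : ℝ) * ((γ + w ω) * y + α) : ℝ) * Complex.I) *
        Complex.exp (((b : ℝ) * ((γ + w ω) * y' + α) : ℝ) * Complex.I)) := by ring
      _ = _ := by rw [e1]; ring
  set E : ℤ × ℤ → ℂ := fun x =>
    ∫ ω, Complex.exp ((((x.1 : ℝ) * y + x.2 * y') * w ω : ℝ) * Complex.I) ∂P with hE
  have hint : ((∫ ω, f ((γ + w ω) * y + α) * f' ((γ + w ω) * y' + α) ∂P : ℝ) : ℂ) =
      ∑ x ∈ J, u x * E x := by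
    rw [← integral_complex_ofReal]
    simp_rw [hexp]
    rw [integral_finsetSum]
    · apply sum_congr rfl
      intro x _
      rw [integral_const_mul]
    · intro x _
      exact (integrable_exp hw _).const_mul _
  have h00 : ((0 : ℤ), (0 : ℤ)) ∈ J := by simp [hJ, hI1, hI2]
  have hz : u (0, 0) * E (0, 0) = ((f0 * f0' : ℝ) : ℂ) := by
    simp [hu, hE, hp0, hq0]
  have hu_norm : ∀ x, ‖u x‖ = ‖p x.1‖ * ‖q x.2‖ := by
    intro x
    simp only [hu]
    rw [norm_mul, norm_mul, Complex.norm_exp_ofReal_mul_I, mul_one]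
  have hkey : ‖((∫ ω, f ((γ + w ω) * y + α) * f' ((γ + w ω) * y' + α) ∂P - f0 * f0' : ℝ) : ℂ)‖
      ≤ S * S' * ψ := by
    rw [Complex.ofReal_sub, hint, ← add_sum_erase J _ h00, hz, add_sub_cancel_left]
    calc ‖∑ x ∈ J.erase (0, 0), u x * E x‖
        ≤ ∑ x ∈ J.erase (0, 0), ‖p x.1‖ * ‖q x.2‖ * ψ := by
          refine norm_sum_le_of_le _ fun x hx => ?_
          rw [norm_mul, hu_norm]
          apply mul_le_mul_of_nonneg_left _ (by positivity)
          apply hψ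
          have hx1 := mem_of_mem_erase hx
          have hx2 := ne_of_mem_erase hx
          rw [hJ, mem_product, hI1, hI2, mem_Icc, mem_Icc] at hx1
          apply hsep x.1 x.2 (abs_le.mpr hx1.1) (abs_le.mpr hx1.2)
          by_contra hcon
          push Not at hcon
          exact hx2 (Prod.ext hcon.1 hcon.2)
      _ ≤ ∑ x ∈ J, ‖p x.1‖ * ‖q x.2‖ * ψ :=
          sum_le_sum_of_subset_of_nonneg (erase_subset _ _) fun _ _ _ => by positivity
      _ = (∑ a ∈ I1, ‖p a‖) * (∑ b ∈ I2, ‖q b‖) * ψ := by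
          rw [← sum_mul, hJ, sum_product, sum_mul_sum]
      _ ≤ S * S' * ψ := by
          apply mul_le_mul_of_nonneg_right _ hψ0
          exact mul_le_mul hpS hqS (sum_nonneg fun _ _ => norm_nonneg _) hSS
  rw [Complex.norm_real] at hkey
  exact hkey

/-- Expectation of a product of functions of the independent displacements. -/
theorem integral_prod {w : ℕ → Ω → ℝ} (hi : iIndepFun w P) (hm : ∀ n, Measurable (w n))
    (s : Finset ℕ) (h : ℕ → ℝ → ℝ) (hh : ∀ n, Measurable (h n)) :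
    ∫ ω, ∏ n ∈ s, h n (w n ω) ∂P = ∏ n ∈ s, ∫ ω, h n (w n ω) ∂P := by
  have h1 := (hi.precomp (Subtype.val_injective (p := fun n => n ∈ s))).integral_fun_prod_comp
    (f := fun i : s => h i.1) (fun i => (hm i.1).aemeasurable)
    (fun i => (hh i.1).aestronglyMeasurable)
  have h2 : ∀ ω, ∏ n ∈ s, h n (w n ω) = ∏ i : s, h i.1 (w i.1 ω) := fun ω =>
    (Finset.prod_coe_sort s fun n => h n (w n ω)).symm
  have h3 : ∏ n ∈ s, ∫ ω, h n (w n ω) ∂P = ∏ i : s, ∫ ω, h i.1 (w i.1 ω) ∂P :=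
    (Finset.prod_coe_sort s fun n => ∫ ω, h n (w n ω) ∂P).symm
  simp_rw [h2]
  rw [h3]
  exact h1

theorem prod_close (s : Finset ℕ) (x t : ℕ → ℝ) {ε : ℝ} (hε : 0 ≤ ε)
    (hx : ∀ n ∈ s, |x n - t n| ≤ ε) (ht : ∀ n ∈ s, |t n| ≤ 1) :
    |∏ n ∈ s, x n - ∏ n ∈ s, t n| ≤ (1 + ε) ^ (#s) - 1 ∧ |∏ n ∈ s, t n| ≤ 1 := by
  induction s using Finset.induction_on with
  | empty => simp
  | insert a s ha ih =>
    obtain ⟨h1, h2⟩ := ih (fun n hn => hx n (mem_insert_of_mem hn))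
      (fun n hn => ht n (mem_insert_of_mem hn))
    have hxa := hx a (mem_insert_self a s)
    have hta := ht a (mem_insert_self a s)
    rw [prod_insert ha, prod_insert ha, card_insert_of_notMem ha]
    constructor
    · have e1 : x a * ∏ n ∈ s, x n - t a * ∏ n ∈ s, t n =
          x a * (∏ n ∈ s, x n - ∏ n ∈ s, t n) + (x a - t a) * ∏ n ∈ s, t n := by ring
      have hxa' : |x a| ≤ 1 + ε := by
        calc |x a| = |(x a - t a) + t a| := by ring_nf
          _ ≤ |x a - t a| + |t a| := abs_add_le _ _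
          _ ≤ 1 + ε := by linarith
      have hpow : (1 : ℝ) ≤ (1 + ε) ^ (#s) := one_le_pow₀ (by linarith)
      calc |x a * ∏ n ∈ s, x n - t a * ∏ n ∈ s, t n|
          ≤ |x a| * |∏ n ∈ s, x n - ∏ n ∈ s, t n| + |x a - t a| * |∏ n ∈ s, t n| := by
            rw [e1]
            refine le_trans (abs_add_le _ _) ?_
            rw [abs_mul, abs_mul]
        _ ≤ (1 + ε) * ((1 + ε) ^ (#s) - 1) + ε * 1 := by
            apply add_le_add
            · exact mul_le_mul hxa' h1 (abs_nonneg _) (by linarith)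
            · exact mul_le_mul hxa h2 (abs_nonneg _) hε
        _ = (1 + ε) ^ (#s + 1) - 1 := by ring
    · rw [abs_mul]
      calc |t a| * |∏ n ∈ s, t n| ≤ 1 * 1 := mul_le_mul hta h2 (abs_nonneg _) (by norm_num)
        _ = 1 := by norm_num

theorem pow_sub_one_le {ε : ℝ} (hε : 0 ≤ ε) (N : ℕ) (h : (N : ℝ) * ε ≤ 1) :
    (1 + ε) ^ N - 1 ≤ 2 * (N * ε) := by
  have h1 : (1 + ε) ^ N ≤ Real.exp (N * ε) := by
    calc (1 + ε) ^ N ≤ (Real.exp ε) ^ N := by
          gcongr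
          linarith [Real.add_one_le_exp ε]
      _ = Real.exp (N * ε) := by rw [← Real.exp_nat_mul]
  have h0 : 0 ≤ (N : ℝ) * ε := by positivity
  have h2 : Real.exp (N * ε) ≤ 1 + 2 * (N * ε) := by
    have := Real.abs_exp_sub_one_le (x := N * ε) (by rw [abs_of_nonneg h0]; exact h)
    rw [abs_of_nonneg h0] at this
    have h3 := le_abs_self (Real.exp (N * ε) - 1)
    linarith
  linarith

end Pool.Agent.Helper51.DO
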