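import Pool.Agent.Helper51.DO.L2

/-!
# Displaced ordinates, lower half 3: second moments
Author: helper51.
-/

set_option autoImplicit false

namespace Pool.Agent.Helper51.DO

open MeasureTheory ProbabilityTheory Filter Finset

variable {Ω : Type*} [MeasurableSpace Ω] {P : Measure Ω} [IsProbabilityMeasure P]

/-- The phase of the `n`-th term at `y`. -/
noncomputable def ph (g α : ℕ → ℝ) (w : ℕ → Ω → ℝ) (y : ℝ) (n : ℕ) (ω : Ω) : ℝ :=
  (g n + w n ω) * y + α n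

omit [MeasurableSpace Ω] in
theorem ph_def (g α : ℕ → ℝ) (w : ℕ → Ω → ℝ) (y : ℝ) (n : ℕ) (ω : Ω) :
    ph g α w y n ω = (g n + w n ω) * y + α n := rfl

/-- Pair correlation of products. -/
theorem pair {w : ℕ → Ω → ℝ} (hi : iIndepFun w P) (hm : ∀ n, Measurable (w n))
    (g α : ℕ → ℝ) (s : Finset ℕ) {f f' : ℕ → ℝ → ℝ} {L L' : ℕ} {M M' ψ τ : ℝ} {t t' : ℕ → ℝ}
    (hf : ∀ n, TP (f n) L M (t n)) (hf' : ∀ n, TP (f' n) L' M' (t' n))
    (ht : ∀ n, |t n| ≤ 1) (ht' : ∀ n, |t' n| ≤ 1)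
    (hψ : ∀ n ∈ s, ∀ x : ℝ, τ ≤ |x| →
      ‖∫ ω, Complex.exp ((x * w n ω : ℝ) * Complex.I) ∂P‖ ≤ ψ) (hψ0 : 0 ≤ ψ) (y y' : ℝ)
    (hsep : ∀ a b : ℤ, |a| ≤ L → |b| ≤ L' → (a ≠ 0 ∨ b ≠ 0) → τ ≤ |a * y + b * y'|) :
    |∫ ω, (∏ n ∈ s, f n (ph g α w y n ω)) * (∏ n ∈ s, f' n (ph g α w y' n ω)) ∂P
      - (∏ n ∈ s, t n) * (∏ n ∈ s, t' n)| ≤ (1 + M * M' * ψ) ^ (#s) - 1 := by
  have hM : 0 ≤ M := (hf 0).nonneg_sum
  have hM' : 0 ≤ M' := (hf' 0).nonneg_sum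
  have h1 : ∀ ω, (∏ n ∈ s, f n (ph g α w y n ω)) * (∏ n ∈ s, f' n (ph g α w y' n ω)) =
      ∏ n ∈ s, (fun x => f n ((g n + x) * y + α n) * f' n ((g n + x) * y' + α n)) (w n ω) := by
    intro ω
    rw [← prod_mul_distrib]
    rfl
  simp_rw [h1]
  rw [integral_prod hi hm s (fun n x => f n ((g n + x) * y + α n) * f' n ((g n + x) * y' + α n))
    (fun n => by
      have c1 := (hf n).continuous
      have c2 := (hf' n).continuous
      have : Continuous fun x : ℝ => f n ((g n + x) * y + α n) * f' n ((g n + x) * y' + α n) := by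
        fun_prop
      exact this.measurable), ← prod_mul_distrib]
  refine (prod_close s _ _ (by positivity) (fun n hn => ?_) (fun n _ => ?_)).1
  · exact factor (hm n) (hf n) (hf' n) (hψ n hn) hψ0 (g n) y y' (α n) hsep
  · rw [abs_mul]
    calc |t n| * |t' n| ≤ 1 * 1 := mul_le_mul (ht n) (ht' n) (abs_nonneg _) (by norm_num)
      _ = 1 := by norm_num

/-- The kernels: `q` at the marked index, the Fejer kernel elsewhere. -/
noncomputable def ker (D : ℕ) (c : ℝ) (s : Option ℕ) (n : ℕ) : ℝ → ℝ :=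
  if s = some n then qf D c else fej D

noncomputable def tgt (ρ : ℝ) (s : Option ℕ) (n : ℕ) : ℝ := if s = some n then ρ else 1

/-- The marked product at the time `y`. -/
noncomputable def FF (g α : ℕ → ℝ) (w : ℕ → Ω → ℝ) (S : Finset ℕ) (D : ℕ) (c : ℝ) (s : Option ℕ)
    (y : ℝ) (ω : Ω) : ℝ := ∏ n ∈ S, ker D c s n (ph g α w y n ω)

/-- The weights. -/
def wt (a : ℕ → ℝ) : Option ℕ → ℝ
  | none => 1
  | some n => a n

theorem ker_TP {D : ℕ} {c : ℝ} (hc : |c| ≤ 1) (s : Option ℕ) (n : ℕ) :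
    TP (ker D c s n) (D + 1) (2 * (D + 1)) (tgt ((D : ℝ) / (D + 1) - c) s n) := by
  unfold ker tgt
  split_ifs
  · exact qf_TP D c hc
  · exact fej_TP D

theorem ker_abs_le {D : ℕ} {c : ℝ} (hc : |c| ≤ 1) (s : Option ℕ) (n : ℕ) (θ : ℝ) :
    |ker D c s n θ| ≤ 2 * (D + 1) := by
  unfold ker
  split_ifs
  · exact qf_abs_le D c hc θ
  · rw [abs_of_nonneg (fej_nonneg D θ)]
    have := fej_le D θ
    have hD : (0 : ℝ) ≤ D := Nat.cast_nonneg D
    linarith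

theorem tgt_abs_le {ρ : ℝ} (hρ : |ρ| ≤ 1) (s : Option ℕ) (n : ℕ) : |tgt ρ s n| ≤ 1 := by
  unfold tgt
  split_ifs
  · exact hρ
  · simp

theorem tgt_prod_none (ρ : ℝ) (S : Finset ℕ) : ∏ n ∈ S, tgt ρ none n = 1 := by
  simp [tgt]

theorem tgt_prod_some (ρ : ℝ) (S : Finset ℕ) {m : ℕ} (hm : m ∈ S) :
    ∏ n ∈ S, tgt ρ (some m) n = ρ := by
  unfold tgt
  rw [← mul_prod_erase S _ hm, if_pos rfl, prod_eq_one, mul_one]
  intro n hn
  rw [if_neg]
  intro h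
  exact (ne_of_mem_erase hn) (Option.some.inj h).symm

omit [MeasurableSpace Ω] in
theorem FF_abs_le (g α : ℕ → ℝ) (w : ℕ → Ω → ℝ) (S : Finset ℕ) {D : ℕ} {c : ℝ} (hc : |c| ≤ 1)
    (s : Option ℕ) (y : ℝ) (ω : Ω) : |FF g α w S D c s y ω| ≤ (2 * (D + 1)) ^ (#S) := by
  unfold FF
  rw [abs_prod]
  calc ∏ n ∈ S, |ker D c s n (ph g α w y n ω)| ≤ ∏ n ∈ S, (2 * ((D : ℝ) + 1)) :=
        prod_le_prod (fun _ _ => abs_nonneg _) fun n _ => ker_abs_le hc s n _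
    _ = _ := by rw [prod_const]

theorem FF_measurable {g α : ℕ → ℝ} {w : ℕ → Ω → ℝ} (hm : ∀ n, Measurable (w n)) (S : Finset ℕ)
    {D : ℕ} {c : ℝ} (hc : |c| ≤ 1) (s : Option ℕ) (y : ℝ) : Measurable (FF g α w S D c s y) := by
  unfold FF
  apply Finset.measurable_prod
  intro n _
  have h1 := (ker_TP (D := D) hc s n).continuous
  have h2 := hm n
  unfold ph
  exact h1.measurable.comp (by fun_prop)

/-- The combination `Z (1 + H - c A)` at the time `y`. -/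
noncomputable def XX (g α : ℕ → ℝ) (w : ℕ → Ω → ℝ) (S : Finset ℕ) (D : ℕ) (c : ℝ) (a : ℕ → ℝ)
    (y : ℝ) (ω : Ω) : ℝ :=
  ∑ s ∈ insertNone S, wt a s * FF g α w S D c s y ω

omit [MeasurableSpace Ω] in
theorem XX_eq (g α : ℕ → ℝ) (w : ℕ → Ω → ℝ) (S : Finset ℕ) (D : ℕ) (c : ℝ) (a : ℕ → ℝ)
    (y : ℝ) (ω : Ω) : XX g α w S D c a y ω = FF g α w S D c none y ω *
      (1 + ∑ n ∈ S, a n * Real.cos (ph g α w y n ω) - c * ∑ n ∈ S, a n) := by
  unfold XX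
  rw [sum_insertNone]
  simp only [wt, one_mul]
  have h1 : ∀ m ∈ S, a m * FF g α w S D c (some m) y ω =
      a m * ((Real.cos (ph g α w y m ω) - c) * FF g α w S D c none y ω) := by
    intro m hm
    unfold FF
    rw [← mul_prod_erase S _ hm, ← mul_prod_erase S (fun n => ker D c none n (ph g α w y n ω)) hm]
    have h2 : ∏ n ∈ S.erase m, ker D c (some m) n (ph g α w y n ω) =
        ∏ n ∈ S.erase m, ker D c none n (ph g α w y n ω) := by
      apply prod_congr rfl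
      intro n hn
      unfold ker
      rw [if_neg, if_neg (by simp)]
      intro h
      exact (ne_of_mem_erase hn) (Option.some.inj h).symm
    rw [h2]
    unfold ker
    rw [if_pos rfl, if_neg (by simp)]
    unfold qf
    ring
  rw [sum_congr rfl h1]
  have h3 : ∑ m ∈ S, a m * ((Real.cos (ph g α w y m ω) - c) * FF g α w S D c none y ω) =
      FF g α w S D c none y ω * (∑ n ∈ S, a n * Real.cos (ph g α w y n ω) - c * ∑ n ∈ S, a n) := by
    rw [mul_sub, mul_sum, mul_sum, mul_sum, ← sum_sub_distrib]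
    apply sum_congr rfl
    intro m _
    ring
  rw [h3]
  ring

/-- Hypotheses on the times. -/
structure Times (P : Measure Ω) (w : ℕ → Ω → ℝ) (S : Finset ℕ) (D m : ℕ) (y : ℕ → ℝ)
    (τ ψ : ℝ) : Prop where
  dec : ∀ n ∈ S, ∀ x : ℝ, τ ≤ |x| → ‖∫ ω, Complex.exp ((x * w n ω : ℝ) * Complex.I) ∂P‖ ≤ ψ
  nonneg : 0 ≤ ψ
  sep : ∀ i < m, ∀ j < m, i ≠ j → ∀ a b : ℤ, |a| ≤ (D + 1 : ℕ) → |b| ≤ (D + 1 : ℕ) →
    (a ≠ 0 ∨ b ≠ 0) → τ ≤ |a * y i + b * y j|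
  sep1 : ∀ i < m, ∀ a : ℤ, |a| ≤ (D + 1 : ℕ) → a ≠ 0 → τ ≤ |a * y i|

/-- The error term. -/
noncomputable def del (S : Finset ℕ) (D : ℕ) (ψ : ℝ) : ℝ :=
  (1 + 2 * (D + 1) * (2 * (D + 1)) * ψ) ^ (#S) - 1

theorem del_nonneg (S : Finset ℕ) (D : ℕ) {ψ : ℝ} (hψ : 0 ≤ ψ) : 0 ≤ del S D ψ := by
  unfold del
  have : (1 : ℝ) ≤ (1 + 2 * (D + 1) * (2 * (D + 1)) * ψ) ^ (#S) := by
    apply one_le_pow₀
    have : 0 ≤ 2 * ((D : ℝ) + 1) * (2 * (D + 1)) * ψ := by positivity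
    linarith
  linarith

/-- Target of a marked product. -/
noncomputable def tg (ρ : ℝ) : Option ℕ → ℝ
  | none => 1
  | some _ => ρ

theorem tg_prod (ρ : ℝ) {S : Finset ℕ} {s : Option ℕ} (hs : s ∈ insertNone S) :
    ∏ n ∈ S, tgt ρ s n = tg ρ s := by
  cases s with
  | none => exact tgt_prod_none ρ S
  | some m => exact tgt_prod_some ρ S (by simpa using hs)

theorem FF_first {g α : ℕ → ℝ} {w : ℕ → Ω → ℝ} (hi : iIndepFun w P) (hm : ∀ n, Measurable (w n))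
    (S : Finset ℕ) {D m : ℕ} {c : ℝ} (hc : |c| ≤ 1) (hρ : |(D : ℝ) / (D + 1) - c| ≤ 1)
    {y : ℕ → ℝ} {τ ψ : ℝ} (hT : Times P w S D m y τ ψ) {i : ℕ} (hi' : i < m) {s : Option ℕ}
    (hs : s ∈ insertNone S) :
    |∫ ω, FF g α w S D c s (y i) ω ∂P - tg ((D : ℝ) / (D + 1) - c) s| ≤ del S D ψ := by
  have h1 := pair hi hm g α S (f := fun n => ker D c s n) (f' := fun _ _ => 1)
    (L := D + 1) (L' := 0) (M := 2 * (D + 1)) (M' := 1) (ψ := ψ) (τ := τ)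
    (t := fun n => tgt ((D : ℝ) / (D + 1) - c) s n) (t' := fun _ => 1)
    (fun n => ker_TP hc s n) (fun n => one_TP) (fun n => tgt_abs_le hρ s n) (fun n => by simp)
    hT.dec hT.nonneg (y i) 0 (by
      intro a b ha hb hab
      have hb0 : b = 0 := by
        rw [Nat.cast_zero, abs_nonpos_iff] at hb
        exact hb
      subst hb0
      have := hT.sep1 i hi' a ha (by simpa using hab)
      simpa using this)
  simp only [prod_const_one, mul_one] at h1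
  rw [tg_prod _ hs] at h1
  refine le_trans h1 ?_
  unfold del
  have h2 : 1 + 2 * ((D : ℝ) + 1) * ψ ≤ 1 + 2 * (D + 1) * (2 * (D + 1)) * ψ := by
    have h3 : (0 : ℝ) ≤ D := Nat.cast_nonneg D
    have h4 := hT.nonneg
    have h5 : 2 * ((D : ℝ) + 1) * 1 ≤ 2 * ((D : ℝ) + 1) * (2 * (D + 1)) := by
      apply mul_le_mul_of_nonneg_left (by linarith) (by linarith)
    nlinarith
  have h6 : (0 : ℝ) ≤ 1 + 2 * ((D : ℝ) + 1) * ψ := by
    have := hT.nonneg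
    positivity
  have := pow_le_pow_left₀ h6 h2 (#S)
  linarith

theorem FF_second {g α : ℕ → ℝ} {w : ℕ → Ω → ℝ} (hi : iIndepFun w P) (hm : ∀ n, Measurable (w n))
    (S : Finset ℕ) {D m : ℕ} {c : ℝ} (hc : |c| ≤ 1) (hρ : |(D : ℝ) / (D + 1) - c| ≤ 1)
    {y : ℕ → ℝ} {τ ψ : ℝ} (hT : Times P w S D m y τ ψ) {i j : ℕ} (hi' : i < m) (hj' : j < m)
    (hij : i ≠ j) {s s' : Option ℕ} (hs : s ∈ insertNone S) (hs' : s' ∈ insertNone S) :
    |∫ ω, FF g α w S D c s (y i) ω * FF g α w S D c s' (y j) ω ∂P -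
      tg ((D : ℝ) / (D + 1) - c) s * tg ((D : ℝ) / (D + 1) - c) s'| ≤ del S D ψ := by
  have h1 := pair hi hm g α S (f := fun n => ker D c s n) (f' := fun n => ker D c s' n)
    (L := D + 1) (L' := D + 1) (M := 2 * (D + 1)) (M' := 2 * (D + 1)) (ψ := ψ) (τ := τ)
    (t := fun n => tgt ((D : ℝ) / (D + 1) - c) s n) (t' := fun n => tgt ((D : ℝ) / (D + 1) - c) s' n)
    (fun n => ker_TP hc s n) (fun n => ker_TP hc s' n) (fun n => tgt_abs_le hρ s n)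
    (fun n => tgt_abs_le hρ s' n)
    hT.dec hT.nonneg (y i) (y j) (fun a b ha hb hab => hT.sep i hi' j hj' hij a b ha hb hab)
  rw [tg_prod _ hs, tg_prod _ hs'] at h1
  exact h1

end Pool.Agent.Helper51.DO
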