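import Pool.Agent.Helper51.DO.L3

/-!
# Displaced ordinates, lower half 4: the head and the tail
Author: helper51.
-/

set_option autoImplicit false

namespace Pool.Agent.Helper51.DO

open MeasureTheory ProbabilityTheory Filter Finset

variable {Ω : Type*} [MeasurableSpace Ω] {P : Measure Ω} [IsProbabilityMeasure P]

theorem integrable_bdd {f : Ω → ℝ} (hf : Measurable f) {C : ℝ} (h : ∀ ω, |f ω| ≤ C) :
    Integrable f P :=
  Integrable.of_bound hf.aestronglyMeasurable C (ae_of_all _ fun ω => by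
    rw [Real.norm_eq_abs]; exact h ω)

theorem wt_sum (a : ℕ → ℝ) (S : Finset ℕ) :
    ∑ s ∈ insertNone S, wt a s = 1 + ∑ n ∈ S, a n := by
  rw [sum_insertNone]
  simp [wt]

theorem wt_tg_sum (a : ℕ → ℝ) (ρ : ℝ) (S : Finset ℕ) :
    ∑ s ∈ insertNone S, wt a s * tg ρ s = 1 + ρ * ∑ n ∈ S, a n := by
  rw [sum_insertNone]
  simp only [wt, tg, one_mul]
  rw [mul_sum]
  congr 1
  exact sum_congr rfl fun n _ => mul_comm _ _

theorem wt_nonneg {a : ℕ → ℝ} (ha : ∀ n, 0 ≤ a n) (s : Option ℕ) : 0 ≤ wt a s := by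
  cases s with
  | none => simp [wt]
  | some n => exact ha n

section

variable {g α a : ℕ → ℝ} {w : ℕ → Ω → ℝ} {S : Finset ℕ} {D m : ℕ} {c : ℝ}
  {y : ℕ → ℝ} {τ ψ : ℝ}

theorem XX_measurable (hm : ∀ n, Measurable (w n)) (hc : |c| ≤ 1) (z : ℝ) :
    Measurable (XX g α w S D c a z) := by
  unfold XX
  apply Finset.measurable_sum
  intro s _
  exact (FF_measurable hm S hc s z).const_mul _

omit [MeasurableSpace Ω] in
theorem XX_abs_le (ha : ∀ n, 0 ≤ a n) (hc : |c| ≤ 1) (z : ℝ) (ω : Ω) :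
    |XX g α w S D c a z ω| ≤ (1 + ∑ n ∈ S, a n) * (2 * (D + 1)) ^ (#S) := by
  unfold XX
  calc |∑ s ∈ insertNone S, wt a s * FF g α w S D c s z ω|
      ≤ ∑ s ∈ insertNone S, |wt a s * FF g α w S D c s z ω| := abs_sum_le_sum_abs _ _
    _ ≤ ∑ s ∈ insertNone S, wt a s * (2 * (D + 1)) ^ (#S) := by
        apply sum_le_sum
        intro s _
        rw [abs_mul, abs_of_nonneg (wt_nonneg ha s)]
        exact mul_le_mul_of_nonneg_left (FF_abs_le g α w S hc s z ω) (wt_nonneg ha s)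
    _ = _ := by rw [← sum_mul, wt_sum]

theorem XX_first (hi : iIndepFun w P) (hm : ∀ n, Measurable (w n)) (ha : ∀ n, 0 ≤ a n)
    (hc : |c| ≤ 1) (hρ : |(D : ℝ) / (D + 1) - c| ≤ 1) (hT : Times P w S D m y τ ψ) {i : ℕ}
    (hi' : i < m) :
    |∫ ω, XX g α w S D c a (y i) ω ∂P - (1 + ((D : ℝ) / (D + 1) - c) * ∑ n ∈ S, a n)| ≤
      (1 + ∑ n ∈ S, a n) * del S D ψ := by
  have h1 : ∫ ω, XX g α w S D c a (y i) ω ∂P =
      ∑ s ∈ insertNone S, wt a s * ∫ ω, FF g α w S D c s (y i) ω ∂P := by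
    unfold XX
    rw [integral_finsetSum]
    · exact sum_congr rfl fun s _ => integral_const_mul _ _
    · intro s _
      exact (integrable_bdd (FF_measurable hm S hc s _)
        (fun ω => FF_abs_le g α w S hc s _ ω)).const_mul _
  rw [h1, ← wt_tg_sum, ← sum_sub_distrib, ← wt_sum, sum_mul]
  refine le_trans (abs_sum_le_sum_abs _ _) (sum_le_sum fun s hs => ?_)
  rw [← mul_sub, abs_mul, abs_of_nonneg (wt_nonneg ha s)]
  exact mul_le_mul_of_nonneg_left (FF_first hi hm S hc hρ hT hi' hs) (wt_nonneg ha s)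

theorem XX_second (hi : iIndepFun w P) (hm : ∀ n, Measurable (w n)) (ha : ∀ n, 0 ≤ a n)
    (hc : |c| ≤ 1) (hρ : |(D : ℝ) / (D + 1) - c| ≤ 1) (hT : Times P w S D m y τ ψ) {i j : ℕ}
    (hi' : i < m) (hj' : j < m) (hij : i ≠ j) :
    |∫ ω, XX g α w S D c a (y i) ω * XX g α w S D c a (y j) ω ∂P -
      (1 + ((D : ℝ) / (D + 1) - c) * ∑ n ∈ S, a n) ^ 2| ≤
      (1 + ∑ n ∈ S, a n) ^ 2 * del S D ψ := by
  have h1 : ∫ ω, XX g α w S D c a (y i) ω * XX g α w S D c a (y j) ω ∂P =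
      ∑ s ∈ insertNone S, ∑ s' ∈ insertNone S, (wt a s * wt a s') *
        ∫ ω, FF g α w S D c s (y i) ω * FF g α w S D c s' (y j) ω ∂P := by
    have h2 : ∀ ω, XX g α w S D c a (y i) ω * XX g α w S D c a (y j) ω =
        ∑ s ∈ insertNone S, ∑ s' ∈ insertNone S, (wt a s * wt a s') *
        (FF g α w S D c s (y i) ω * FF g α w S D c s' (y j) ω) := by
      intro ω
      unfold XX
      rw [sum_mul_sum]
      refine sum_congr rfl fun s _ => sum_congr rfl fun s' _ => by ring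
    have hint : ∀ s s' : Option ℕ, Integrable (fun ω =>
        FF g α w S D c s (y i) ω * FF g α w S D c s' (y j) ω) P := by
      intro s s'
      refine integrable_bdd (C := (2 * (D + 1)) ^ (#S) * (2 * (D + 1)) ^ (#S))
        ((FF_measurable hm S hc s _).mul (FF_measurable hm S hc s' _)) fun ω => ?_
      rw [abs_mul]
      exact mul_le_mul (FF_abs_le g α w S hc s _ ω) (FF_abs_le g α w S hc s' _ ω)
        (abs_nonneg _) (by positivity)
    simp_rw [h2]
    rw [integral_finsetSum]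
    · apply sum_congr rfl
      intro s _
      rw [integral_finsetSum]
      · exact sum_congr rfl fun s' _ => integral_const_mul _ _
      · intro s' _
        exact (hint s s').const_mul _
    · intro s _
      exact integrable_finsetSum _ fun s' _ => (hint s s').const_mul _
  have h3 : (1 + ((D : ℝ) / (D + 1) - c) * ∑ n ∈ S, a n) ^ 2 =
      ∑ s ∈ insertNone S, ∑ s' ∈ insertNone S, (wt a s * wt a s') *
        (tg ((D : ℝ) / (D + 1) - c) s * tg ((D : ℝ) / (D + 1) - c) s') := by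
    rw [← wt_tg_sum, sq, sum_mul_sum]
    refine sum_congr rfl fun s _ => sum_congr rfl fun s' _ => by ring
  have h4 : (1 + ∑ n ∈ S, a n) ^ 2 * del S D ψ =
      ∑ s ∈ insertNone S, ∑ s' ∈ insertNone S, (wt a s * wt a s') * del S D ψ := by
    rw [← wt_sum, sq, sum_mul_sum, sum_mul]
    refine sum_congr rfl fun s _ => by rw [sum_mul]
  rw [h1, h3, h4, ← sum_sub_distrib]
  refine le_trans (abs_sum_le_sum_abs _ _) (sum_le_sum fun s hs => ?_)
  rw [← sum_sub_distrib]
  refine le_trans (abs_sum_le_sum_abs _ _) (sum_le_sum fun s' hs' => ?_)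
  have hw0 : 0 ≤ wt a s * wt a s' := mul_nonneg (wt_nonneg ha s) (wt_nonneg ha s')
  rw [← mul_sub, abs_mul, abs_of_nonneg hw0]
  exact mul_le_mul_of_nonneg_left (FF_second hi hm S hc hρ hT hi' hj' hij hs hs') hw0

theorem sum_ite_le (m : ℕ) {K κ : ℝ} (hK : 0 ≤ K) (hκ : 0 ≤ κ) :
    ∑ i ∈ range m, ∑ j ∈ range m, (if i = j then K else κ) ≤ m * K + (m : ℝ) ^ 2 * κ := by
  calc ∑ i ∈ range m, ∑ j ∈ range m, (if i = j then K else κ)
      ≤ ∑ i ∈ range m, ∑ j ∈ range m, ((if i = j then K else 0) + κ) := by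
        refine sum_le_sum fun i _ => sum_le_sum fun j _ => ?_
        split_ifs <;> linarith
    _ = ∑ i ∈ range m, (K + m * κ) := by
        apply sum_congr rfl
        intro i hi
        rw [sum_add_distrib, sum_ite_eq, if_pos hi, sum_const, card_range, nsmul_eq_mul]
    _ = m * K + (m : ℝ) ^ 2 * κ := by
        rw [sum_const, card_range, nsmul_eq_mul]
        ring

/-- Second moment of the sum over the times. -/
theorem sum_second (hi : iIndepFun w P) (hm : ∀ n, Measurable (w n)) (ha : ∀ n, 0 ≤ a n)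
    (hc : |c| ≤ 1) (hρ0 : 0 ≤ (D : ℝ) / (D + 1) - c) (hρ : |(D : ℝ) / (D + 1) - c| ≤ 1)
    (hT : Times P w S D m y τ ψ) :
    ∫ ω, (∑ i ∈ range m, XX g α w S D c a (y i) ω -
        m * (1 + ((D : ℝ) / (D + 1) - c) * ∑ n ∈ S, a n)) ^ 2 ∂P ≤
      (m : ℝ) ^ 2 * ((1 + ∑ n ∈ S, a n) ^ 2 * del S D ψ +
        2 * (1 + ((D : ℝ) / (D + 1) - c) * ∑ n ∈ S, a n) * ((1 + ∑ n ∈ S, a n) * del S D ψ)) +
      m * ((1 + ∑ n ∈ S, a n) * (2 * (D + 1)) ^ (#S)) ^ 2 := by
  set A := ∑ n ∈ S, a n with hA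
  have hA0 : 0 ≤ A := sum_nonneg fun n _ => ha n
  set ρ := (D : ℝ) / (D + 1) - c with hρd
  set μ := 1 + ρ * A with hμ
  have hμ0 : 0 ≤ μ := by positivity
  set δ := del S D ψ with hδ
  have hδ0 : 0 ≤ δ := del_nonneg S D hT.nonneg
  set X : ℕ → Ω → ℝ := fun i => XX g α w S D c a (y i) with hX
  have hXm : ∀ i, Measurable (X i) := fun i => XX_measurable hm hc _
  set K := (1 + A) * (2 * (D + 1)) ^ (#S) with hK
  have hXb : ∀ i ω, |X i ω| ≤ K := fun i ω => XX_abs_le ha hc _ ω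
  have hK0 : 0 ≤ K := by positivity
  have hXi : ∀ i, Integrable (X i) P := fun i => integrable_bdd (hXm i) (hXb i)
  have hXXb : ∀ i j ω, |X i ω * X j ω| ≤ K ^ 2 := fun i j ω => by
    rw [abs_mul, sq]
    exact mul_le_mul (hXb i ω) (hXb j ω) (abs_nonneg _) hK0
  have hXX : ∀ i j, Integrable (fun ω => X i ω * X j ω) P := fun i j =>
    integrable_bdd ((hXm i).mul (hXm j)) (hXXb i j)
  have h1 : ∀ ω, (∑ i ∈ range m, X i ω - m * μ) ^ 2 =
      ∑ i ∈ range m, ∑ j ∈ range m, X i ω * X j ω - 2 * (m * μ) * ∑ i ∈ range m, X i ω +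
        (m * μ) ^ 2 := by
    intro ω
    rw [← sum_mul_sum]
    ring
  have h2 : ∫ ω, (∑ i ∈ range m, X i ω - m * μ) ^ 2 ∂P =
      ∑ i ∈ range m, ∑ j ∈ range m, ∫ ω, X i ω * X j ω ∂P -
        2 * (m * μ) * ∑ i ∈ range m, ∫ ω, X i ω ∂P + (m * μ) ^ 2 := by
    simp_rw [h1]
    have i1 : Integrable (fun ω => ∑ i ∈ range m, ∑ j ∈ range m, X i ω * X j ω) P :=
      integrable_finsetSum _ fun i _ => integrable_finsetSum _ fun j _ => hXX i j
    have i2 : Integrable (fun ω => 2 * (m * μ) * ∑ i ∈ range m, X i ω) P :=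
      (integrable_finsetSum _ fun i _ => hXi i).const_mul _
    have i12 : Integrable (fun ω => ∑ i ∈ range m, ∑ j ∈ range m, X i ω * X j ω -
        2 * (m * μ) * ∑ i ∈ range m, X i ω) P := i1.sub i2
    rw [integral_add i12 (integrable_const _), integral_sub i1 i2, integral_const_mul,
      integral_finsetSum _ (fun i _ => hXi i),
      integral_finsetSum _ (fun i _ => integrable_finsetSum _ fun j _ => hXX i j)]
    congr 1
    · congr 1
      exact sum_congr rfl fun i _ => integral_finsetSum _ fun j _ => hXX i j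
    · simp
  rw [h2]
  have h3 : ∑ i ∈ range m, ∑ j ∈ range m, ∫ ω, X i ω * X j ω ∂P ≤
      m * K ^ 2 + (m : ℝ) ^ 2 * (μ ^ 2 + (1 + A) ^ 2 * δ) := by
    refine le_trans ?_ (sum_ite_le m (by positivity) (by positivity))
    refine sum_le_sum fun i hi' => sum_le_sum fun j hj' => ?_
    split_ifs with hij
    · calc ∫ ω, X i ω * X j ω ∂P ≤ ∫ _, K ^ 2 ∂P :=
            integral_mono (hXX i j) (integrable_const _) fun ω =>
              le_trans (le_abs_self _) (hXXb i j ω)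
        _ = K ^ 2 := by simp
    · have := XX_second (g := g) (α := α) (S := S) hi hm ha hc hρ hT (mem_range.mp hi')
        (mem_range.mp hj') hij
      have h4 := (abs_le.mp this).2
      linarith
  have h5 : (m : ℝ) * (μ - (1 + A) * δ) ≤ ∑ i ∈ range m, ∫ ω, X i ω ∂P := by
    calc (m : ℝ) * (μ - (1 + A) * δ) = ∑ i ∈ range m, (μ - (1 + A) * δ) := by
          rw [sum_const, card_range, nsmul_eq_mul]
      _ ≤ _ := by
          refine sum_le_sum fun i hi' => ?_
          have := XX_first (g := g) (α := α) (S := S) hi hm ha hc hρ hT (mem_range.mp hi')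
          have h4 := (abs_le.mp this).1
          linarith
  have h6 : 2 * (m * μ) * ((m : ℝ) * (μ - (1 + A) * δ)) ≤
      2 * (m * μ) * ∑ i ∈ range m, ∫ ω, X i ω ∂P :=
    mul_le_mul_of_nonneg_left h5 (by positivity)
  nlinarith [h3, h6]

end

end Pool.Agent.Helper51.DO
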