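import Pool.Agent.Helper51.DO.L4

/-!
# Displaced ordinates, lower half 5: the tail and the probability bound
Author: helper51.
-/

set_option autoImplicit false

namespace Pool.Agent.Helper51.DO

open MeasureTheory ProbabilityTheory Filter Finset

variable {Ω : Type*} [MeasurableSpace Ω] {P : Measure Ω} [IsProbabilityMeasure P]

theorem cos_TP : TP Real.cos 1 1 0 := by
  refine TP.of_sum (univ : Finset (Fin 2)) (fun _ => 1 / 2) (![1, -1]) 1 ?_ _ ?_ _ _ ?_ ?_
  · intro x _
    fin_cases x <;> simp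
  · intro θ
    rw [Fin.sum_univ_two, Complex.ofReal_cos, Complex.cos]
    simp
    ring
  · rw [Fin.sum_univ_two]
    norm_num
  · rw [sum_filter, Fin.sum_univ_two]
    simp

section

variable {g α a : ℕ → ℝ} {w : ℕ → Ω → ℝ}

theorem ph_measurable (hm : ∀ n, Measurable (w n)) (z : ℝ) (n : ℕ) :
    Measurable (ph g α w z n) := by
  unfold ph
  have := hm n
  fun_prop

/-- The sum over a finset of indices. -/
noncomputable def RR (g α a : ℕ → ℝ) (w : ℕ → Ω → ℝ) (U : Finset ℕ) (z : ℝ) (ω : Ω) : ℝ :=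
  ∑ n ∈ U, a n * Real.cos (ph g α w z n ω)

theorem RR_measurable (hm : ∀ n, Measurable (w n)) (U : Finset ℕ) (z : ℝ) :
    Measurable (RR g α a w U z) := by
  unfold RR
  apply Finset.measurable_sum
  intro n _
  exact ((Real.measurable_cos).comp (ph_measurable hm z n)).const_mul _

omit [MeasurableSpace Ω] in
theorem RR_abs_le (ha : ∀ n, 0 ≤ a n) (U : Finset ℕ) (z : ℝ) (ω : Ω) :
    |RR g α a w U z ω| ≤ ∑ n ∈ U, a n := by
  unfold RR
  refine le_trans (abs_sum_le_sum_abs _ _) (sum_le_sum fun n _ => ?_)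
  rw [abs_mul, abs_of_nonneg (ha n)]
  have := Real.abs_cos_le_one (ph g α w z n ω)
  nlinarith [ha n]

theorem mean_le (hm : ∀ n, Measurable (w n)) (ha : ∀ n, 0 ≤ a n) {τ ψ z : ℝ} {n : ℕ}
    (hdec : ∀ x : ℝ, τ ≤ |x| → ‖∫ ω, Complex.exp ((x * w n ω : ℝ) * Complex.I) ∂P‖ ≤ ψ)
    (hψ : 0 ≤ ψ) (hz : τ ≤ |z|) :
    |∫ ω, a n * Real.cos (ph g α w z n ω) ∂P| ≤ a n * ψ := by
  rw [integral_const_mul, abs_mul, abs_of_nonneg (ha n)]
  apply mul_le_mul_of_nonneg_left _ (ha n)
  have h1 := factor (P := P) (hm n) cos_TP one_TP hdec hψ (g n) z 0 (α n) (by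
    intro p q hp hq hpq
    have hq0 : q = 0 := by
      rw [Nat.cast_zero, abs_nonpos_iff] at hq
      exact hq
    subst hq0
    have hp0 : p ≠ 0 := by simpa using hpq
    have hp1 : |p| = 1 := by
      have : 0 < |p| := abs_pos.mpr hp0
      have h2 : |p| ≤ 1 := by exact_mod_cast hp
      omega
    have h3 : |((p : ℤ) : ℝ)| = 1 := by
      rw [← Int.cast_abs, hp1]
      simp
    simp only [Int.cast_zero, zero_mul, add_zero, abs_mul, h3, one_mul]
    exact hz)
  simp only [mul_one, sub_zero, zero_mul, one_mul] at h1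
  exact h1

/-- Second moment of a sum of independent terms with small means. -/
theorem tail_second (hi : iIndepFun w P) (hm : ∀ n, Measurable (w n)) (ha : ∀ n, 0 ≤ a n)
    {τ ψ z : ℝ} (U : Finset ℕ)
    (hdec : ∀ n ∈ U, ∀ x : ℝ, τ ≤ |x| →
      ‖∫ ω, Complex.exp ((x * w n ω : ℝ) * Complex.I) ∂P‖ ≤ ψ)
    (hψ : 0 ≤ ψ) (hz : τ ≤ |z|) :
    ∫ ω, RR g α a w U z ω ^ 2 ∂P ≤ ∑ n ∈ U, a n ^ 2 + (ψ * ∑ n ∈ U, a n) ^ 2 := by
  set r : ℕ → Ω → ℝ := fun n ω => a n * Real.cos (ph g α w z n ω) with hr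
  have hrm : ∀ n, Measurable (r n) := fun n =>
    ((Real.measurable_cos).comp (ph_measurable hm z n)).const_mul _
  have hrb : ∀ n ω, |r n ω| ≤ a n := by
    intro n ω
    simp only [hr]
    rw [abs_mul, abs_of_nonneg (ha n)]
    have := Real.abs_cos_le_one (ph g α w z n ω)
    nlinarith [ha n]
  have hrr : ∀ n n', Integrable (fun ω => r n ω * r n' ω) P := fun n n' =>
    integrable_bdd ((hrm n).mul (hrm n')) (C := a n * a n') fun ω => by
      rw [abs_mul]
      exact mul_le_mul (hrb n ω) (hrb n' ω) (abs_nonneg _) (ha n)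
  have h1 : ∫ ω, RR g α a w U z ω ^ 2 ∂P = ∑ n ∈ U, ∑ n' ∈ U, ∫ ω, r n ω * r n' ω ∂P := by
    have h2 : ∀ ω, RR g α a w U z ω ^ 2 = ∑ n ∈ U, ∑ n' ∈ U, r n ω * r n' ω := by
      intro ω
      unfold RR
      rw [sq, sum_mul_sum]
    simp_rw [h2]
    rw [integral_finsetSum _ (fun n _ => integrable_finsetSum _ fun n' _ => hrr n n')]
    exact sum_congr rfl fun n _ => integral_finsetSum _ fun n' _ => hrr n n'
  rw [h1]
  have h3 : ∀ n ∈ U, ∀ n' ∈ U, ∫ ω, r n ω * r n' ω ∂P ≤
      (if n = n' then a n ^ 2 else 0) + (a n * ψ) * (a n' * ψ) := by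
    intro n hn n' hn'
    split_ifs with h
    · subst h
      calc ∫ ω, r n ω * r n ω ∂P ≤ ∫ _, a n ^ 2 ∂P := by
            refine integral_mono (hrr n n) (integrable_const _) fun ω => ?_
            have := hrb n ω
            calc r n ω * r n ω = |r n ω| ^ 2 := by rw [sq_abs]; ring
              _ ≤ a n ^ 2 := by gcongr
        _ = a n ^ 2 := by simp
        _ ≤ _ := by
            have : 0 ≤ (a n * ψ) * (a n * ψ) := mul_self_nonneg _
            linarith
    · have hind : IndepFun (r n) (r n') P := by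
        have h4 := hi.indepFun h
        have h5 : Measurable fun x : ℝ => a n * Real.cos ((g n + x) * z + α n) := by fun_prop
        have h6 : Measurable fun x : ℝ => a n' * Real.cos ((g n' + x) * z + α n') := by fun_prop
        exact h4.comp h5 h6
      have h7 := hind.integral_fun_mul_eq_mul_integral (hrm n).aestronglyMeasurable
        (hrm n').aestronglyMeasurable
      rw [h7, zero_add]
      have m1 := mean_le (g := g) (α := α) hm ha (hdec n hn) hψ hz
      have m2 := mean_le (g := g) (α := α) hm ha (hdec n' hn') hψ hz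
      calc (∫ ω, r n ω ∂P) * ∫ ω, r n' ω ∂P ≤ |(∫ ω, r n ω ∂P) * ∫ ω, r n' ω ∂P| := le_abs_self _
        _ = |∫ ω, r n ω ∂P| * |∫ ω, r n' ω ∂P| := abs_mul _ _
        _ ≤ _ := mul_le_mul m1 m2 (abs_nonneg _) (mul_nonneg (ha n) hψ)
  calc ∑ n ∈ U, ∑ n' ∈ U, ∫ ω, r n ω * r n' ω ∂P
      ≤ ∑ n ∈ U, ∑ n' ∈ U, ((if n = n' then a n ^ 2 else 0) + (a n * ψ) * (a n' * ψ)) :=
        sum_le_sum fun n hn => sum_le_sum fun n' hn' => h3 n hn n' hn'
    _ = ∑ n ∈ U, a n ^ 2 + (∑ n ∈ U, a n * ψ) * ∑ n' ∈ U, a n' * ψ := by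
        rw [sum_mul_sum, ← sum_add_distrib]
        apply sum_congr rfl
        intro n hn
        rw [sum_add_distrib, sum_ite_eq, if_pos hn]
    _ = _ := by
        rw [← sum_mul]
        ring

theorem indep_split (hi : iIndepFun w P) (hm : ∀ n, Measurable (w n)) {S T : Finset ℕ}
    (hd : Disjoint S T) (φ : (S → ℝ) → ℝ) (φ' : (T → ℝ) → ℝ) (h1 : Measurable φ)
    (h2 : Measurable φ') :
    ∫ ω, φ (fun i => w i ω) * φ' (fun i => w i ω) ∂P =
      (∫ ω, φ (fun i => w i ω) ∂P) * ∫ ω, φ' (fun i => w i ω) ∂P := by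
  have h3 := (hi.indepFun_finset S T hd hm).comp h1 h2
  have m1 : Measurable fun ω => φ (fun i : S => w i ω) :=
    h1.comp (measurable_pi_lambda _ fun i => hm i)
  have m2 : Measurable fun ω => φ' (fun i : T => w i ω) :=
    h2.comp (measurable_pi_lambda _ fun i => hm i)
  exact h3.integral_fun_mul_eq_mul_integral m1.aestronglyMeasurable m2.aestronglyMeasurable

theorem split_ZR (hi : iIndepFun w P) (hm : ∀ n, Measurable (w n)) {S : Finset ℕ} {D : ℕ} {c : ℝ}
    (hc : |c| ≤ 1) {U U' : Finset ℕ} (h1 : Disjoint S U) (h2 : Disjoint S U') (z z' : ℝ) :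
    ∫ ω, (FF g α w S D c none z ω * FF g α w S D c none z' ω) *
        (RR g α a w U z ω * RR g α a w U' z' ω) ∂P =
      (∫ ω, FF g α w S D c none z ω * FF g α w S D c none z' ω ∂P) *
        ∫ ω, RR g α a w U z ω * RR g α a w U' z' ω ∂P := by
  have hd : Disjoint S (U ∪ U') := by
    rw [disjoint_union_right]
    exact ⟨h1, h2⟩
  set φ : (S → ℝ) → ℝ := fun x =>
    (∏ i : S, ker D c none i ((g i + x i) * z + α i)) *
      ∏ i : S, ker D c none i ((g i + x i) * z' + α i) with hφ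
  set φ' : ((U ∪ U' : Finset ℕ) → ℝ) → ℝ := fun x =>
    (∑ i : (U ∪ U' : Finset ℕ), if i.1 ∈ U then a i * Real.cos ((g i + x i) * z + α i) else 0) *
      ∑ i : (U ∪ U' : Finset ℕ), if i.1 ∈ U' then a i * Real.cos ((g i + x i) * z' + α i) else 0
    with hφ'
  have e1 : ∀ ω, FF g α w S D c none z ω * FF g α w S D c none z' ω =
      φ (fun i => w i ω) := by
    intro ω
    simp only [hφ, FF, ph]
    rw [← prod_coe_sort S, ← prod_coe_sort S]
  have e2 : ∀ ω, RR g α a w U z ω * RR g α a w U' z' ω = φ' (fun i => w i ω) := by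
    intro ω
    simp only [hφ', RR, ph]
    rw [sum_coe_sort (U ∪ U') fun i => if i ∈ U then a i * Real.cos ((g i + w i ω) * z + α i) else 0,
      sum_coe_sort (U ∪ U') fun i => if i ∈ U' then a i * Real.cos ((g i + w i ω) * z' + α i) else 0,
      sum_ite_mem, sum_ite_mem, union_inter_cancel_left, union_inter_cancel_right]
  simp_rw [e1, e2]
  apply indep_split hi hm hd
  · have hk : ∀ i : S, Measurable (ker D c none i) := fun i =>
      (ker_TP (D := D) hc none i).continuous.measurable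
    have hk1 : ∀ (i : S) (z : ℝ), Measurable fun x : S → ℝ => ker D c none i ((g i + x i) * z + α i) := by
      intro i z
      exact (hk i).comp (by fun_prop)
    exact (Finset.measurable_prod _ fun i _ => hk1 i z).mul
      (Finset.measurable_prod _ fun i _ => hk1 i z')
  · refine (Finset.measurable_sum _ fun i _ => ?_).mul (Finset.measurable_sum _ fun i _ => ?_)
    · split_ifs
      · fun_prop
      · exact measurable_const
    · split_ifs
      · fun_prop
      · exact measurable_const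

end

section

variable {g α a : ℕ → ℝ} {w : ℕ → Ω → ℝ} {S : Finset ℕ} {D m : ℕ} {c : ℝ}
  {y : ℕ → ℝ} {τ ψ : ℝ}

omit [MeasurableSpace Ω] in
theorem Z_nonneg (g α : ℕ → ℝ) (w : ℕ → Ω → ℝ) (S : Finset ℕ) (D : ℕ) (c z : ℝ) (ω : Ω) :
    0 ≤ FF g α w S D c none z ω := by
  unfold FF ker
  apply prod_nonneg
  intro n _
  rw [if_neg (by simp)]
  exact fej_nonneg _ _

theorem tail_sum (hi : iIndepFun w P) (hm : ∀ n, Measurable (w n)) (ha : ∀ n, 0 ≤ a n)
    (hc : |c| ≤ 1) (hρ : |(D : ℝ) / (D + 1) - c| ≤ 1) (hT : Times P w S D m y τ ψ)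
    (U : ℕ → Finset ℕ) (hU : ∀ i < m, Disjoint S (U i)) {v : ℝ}
    (hv : ∀ i < m, ∫ ω, RR g α a w (U i) (y i) ω ^ 2 ∂P ≤ v) :
    ∫ ω, (∑ i ∈ range m, FF g α w S D c none (y i) ω * RR g α a w (U i) (y i) ω) ^ 2 ∂P ≤
      v * (m * ((2 * (D + 1)) ^ (#S)) ^ 2 + (m : ℝ) ^ 2 * (1 + del S D ψ)) := by
  set Z : ℕ → Ω → ℝ := fun i => FF g α w S D c none (y i) with hZ
  set R : ℕ → Ω → ℝ := fun i => RR g α a w (U i) (y i) with hR
  have hZm : ∀ i, Measurable (Z i) := fun i => FF_measurable hm S hc none _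
  have hRm : ∀ i, Measurable (R i) := fun i => RR_measurable hm _ _
  set K := (2 * ((D : ℝ) + 1)) ^ (#S) with hK
  have hK0 : 0 ≤ K := by positivity
  have hZb : ∀ i ω, |Z i ω| ≤ K := fun i ω => FF_abs_le g α w S hc none _ ω
  have hZ0 : ∀ i ω, 0 ≤ Z i ω := fun i ω => Z_nonneg g α w S D c _ ω
  set B : ℕ → ℝ := fun i => ∑ n ∈ U i, a n with hB
  have hB0 : ∀ i, 0 ≤ B i := fun i => sum_nonneg fun n _ => ha n
  have hRb : ∀ i ω, |R i ω| ≤ B i := fun i ω => RR_abs_le ha _ _ ω
  have iZZ : ∀ i j, Integrable (fun ω => Z i ω * Z j ω) P := fun i j =>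
    integrable_bdd ((hZm i).mul (hZm j)) (C := K * K) fun ω => by
      rw [abs_mul]
      exact mul_le_mul (hZb i ω) (hZb j ω) (abs_nonneg _) hK0
  have iRR : ∀ i j, Integrable (fun ω => R i ω * R j ω) P := fun i j =>
    integrable_bdd ((hRm i).mul (hRm j)) (C := B i * B j) fun ω => by
      rw [abs_mul]
      exact mul_le_mul (hRb i ω) (hRb j ω) (abs_nonneg _) (hB0 i)
  have iR2 : ∀ i, Integrable (fun ω => R i ω ^ 2) P := fun i => by
    have := iRR i i
    simpa [sq] using this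
  have iZR : ∀ i j, Integrable (fun ω => (Z i ω * Z j ω) * (R i ω * R j ω)) P := fun i j =>
    integrable_bdd (((hZm i).mul (hZm j)).mul ((hRm i).mul (hRm j)))
      (C := (K * K) * (B i * B j)) fun ω => by
      rw [abs_mul, abs_mul, abs_mul]
      apply mul_le_mul _ _ (by positivity) (by positivity)
      · exact mul_le_mul (hZb i ω) (hZb j ω) (abs_nonneg _) hK0
      · exact mul_le_mul (hRb i ω) (hRb j ω) (abs_nonneg _) (hB0 i)
  have h1 : ∫ ω, (∑ i ∈ range m, Z i ω * R i ω) ^ 2 ∂P =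
      ∑ i ∈ range m, ∑ j ∈ range m, ∫ ω, (Z i ω * Z j ω) * (R i ω * R j ω) ∂P := by
    have h2 : ∀ ω, (∑ i ∈ range m, Z i ω * R i ω) ^ 2 =
        ∑ i ∈ range m, ∑ j ∈ range m, (Z i ω * Z j ω) * (R i ω * R j ω) := by
      intro ω
      rw [sq, sum_mul_sum]
      exact sum_congr rfl fun i _ => sum_congr rfl fun j _ => by ring
    simp_rw [h2]
    rw [integral_finsetSum _ (fun i _ => integrable_finsetSum _ fun j _ => iZR i j)]
    exact sum_congr rfl fun i _ => integral_finsetSum _ fun j _ => iZR i j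
  rw [h1]
  have hδ0 : 0 ≤ del S D ψ := del_nonneg S D hT.nonneg
  have h3 : ∀ i < m, ∀ j < m, ∫ ω, (Z i ω * Z j ω) * (R i ω * R j ω) ∂P ≤
      v * (if i = j then K ^ 2 else 1 + del S D ψ) := by
    intro i hi' j hj'
    have hsp : ∫ ω, (Z i ω * Z j ω) * (R i ω * R j ω) ∂P =
        (∫ ω, Z i ω * Z j ω ∂P) * ∫ ω, R i ω * R j ω ∂P :=
      split_ZR hi hm hc (hU i hi') (hU j hj') (y i) (y j)
    rw [hsp]
    have hR1 : ∫ ω, R i ω * R j ω ∂P ≤ v := by
      have h4 : ∫ ω, R i ω * R j ω ∂P ≤ ∫ ω, (R i ω ^ 2 + R j ω ^ 2) / 2 ∂P := by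
        refine integral_mono (iRR i j) (((iR2 i).add (iR2 j)).div_const 2) fun ω => ?_
        simp only
        nlinarith [sq_nonneg (R i ω - R j ω)]
      have h5 : ∫ ω, (R i ω ^ 2 + R j ω ^ 2) / 2 ∂P =
          (∫ ω, R i ω ^ 2 ∂P + ∫ ω, R j ω ^ 2 ∂P) / 2 := by
        rw [integral_div, integral_add (iR2 i) (iR2 j)]
      rw [h5] at h4
      have h6 := hv i hi'
      have h7 := hv j hj'
      linarith
    have hv0 : 0 ≤ v := le_trans (integral_nonneg fun ω => sq_nonneg _) (hv i hi')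
    have hZ1 : 0 ≤ ∫ ω, Z i ω * Z j ω ∂P := integral_nonneg fun ω => mul_nonneg (hZ0 i ω) (hZ0 j ω)
    have hZ2 : ∫ ω, Z i ω * Z j ω ∂P ≤ (if i = j then K ^ 2 else 1 + del S D ψ) := by
      split_ifs with hij
      · calc ∫ ω, Z i ω * Z j ω ∂P ≤ ∫ _, K ^ 2 ∂P :=
              integral_mono (iZZ i j) (integrable_const _) fun ω => by
                have q1 := hZb i ω
                have q2 := hZb j ω
                rw [abs_of_nonneg (hZ0 i ω)] at q1
                rw [abs_of_nonneg (hZ0 j ω)] at q2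
                simp only [sq]
                exact mul_le_mul q1 q2 (hZ0 j ω) hK0
          _ = K ^ 2 := by simp
      · have := FF_second (g := g) (α := α) hi hm S hc hρ hT hi' hj' hij
          (s := none) (s' := none) (by simp) (by simp)
        simp only [tg, mul_one] at this
        have h8 := (abs_le.mp this).2
        linarith
    calc (∫ ω, Z i ω * Z j ω ∂P) * ∫ ω, R i ω * R j ω ∂P ≤ (∫ ω, Z i ω * Z j ω ∂P) * v :=
          mul_le_mul_of_nonneg_left hR1 hZ1
      _ ≤ _ := by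
          rw [mul_comm]
          exact mul_le_mul_of_nonneg_left hZ2 hv0
  calc ∑ i ∈ range m, ∑ j ∈ range m, ∫ ω, (Z i ω * Z j ω) * (R i ω * R j ω) ∂P
      ≤ ∑ i ∈ range m, ∑ j ∈ range m, v * (if i = j then K ^ 2 else 1 + del S D ψ) :=
        sum_le_sum fun i hi' => sum_le_sum fun j hj' =>
          h3 i (mem_range.mp hi') j (mem_range.mp hj')
    _ = v * ∑ i ∈ range m, ∑ j ∈ range m, (if i = j then K ^ 2 else 1 + del S D ψ) := by
        rw [mul_sum]
        exact sum_congr rfl fun i _ => by rw [mul_sum]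
    _ ≤ _ := by
        rcases Nat.eq_zero_or_pos m with h0 | h0
        · subst h0
          simp
        · have hv0 : 0 ≤ v := le_trans (integral_nonneg fun ω => sq_nonneg _) (hv 0 h0)
          exact mul_le_mul_of_nonneg_left (sum_ite_le m (by positivity) (by positivity)) hv0

end

end Pool.Agent.Helper51.DO
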