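import Pool.Agent.Helper51.DO.L5

/-!
# Displaced ordinates, lower half 6: the probability bound
Author: helper51.
-/

set_option autoImplicit false

namespace Pool.Agent.Helper51.DO

open MeasureTheory ProbabilityTheory Filter Finset

variable {Ω : Type*} [MeasurableSpace Ω] {P : Measure Ω} [IsProbabilityMeasure P]
variable {g α a : ℕ → ℝ} {w : ℕ → Ω → ℝ} {S : Finset ℕ} {D m : ℕ} {c : ℝ}
  {y : ℕ → ℝ} {τ ψ : ℝ}

theorem prob_bound (hi : iIndepFun w P) (hm : ∀ n, Measurable (w n)) (ha : ∀ n, 0 ≤ a n)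
    (hc : |c| ≤ 1) {ρ : ℝ} (hρd : (D : ℝ) / (D + 1) - c = ρ) (hρ0 : 0 < ρ) (hρ1 : ρ ≤ 1)
    (hT : Times P w S D m y τ ψ) (hm1 : 1 ≤ m)
    (U : ℕ → Finset ℕ) (hU : ∀ i < m, Disjoint S (U i)) {v : ℝ} (hv0 : 0 ≤ v)
    (hv : ∀ i < m, ∫ ω, RR g α a w (U i) (y i) ω ^ 2 ∂P ≤ v) :
    P.real {ω | ∀ i < m, RR g α a w S (y i) ω + RR g α a w (U i) (y i) ω ≤
      c * ∑ n ∈ S, a n - 1} ≤
      6 * del S D ψ / ρ ^ 2 + 2 * (((2 * ((D : ℝ) + 1)) ^ (#S)) ^ 2 / m) / ρ ^ 2 +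
        2 * v * (((2 * ((D : ℝ) + 1)) ^ (#S)) ^ 2 / m + 1 + del S D ψ) := by
  set F := {ω | ∀ i < m, RR g α a w S (y i) ω + RR g α a w (U i) (y i) ω ≤
      c * ∑ n ∈ S, a n - 1} with hF
  set A := ∑ n ∈ S, a n with hA
  have hA0 : 0 ≤ A := sum_nonneg fun n _ => ha n
  set δ := del S D ψ with hδ
  have hδ0 : 0 ≤ δ := del_nonneg S D hT.nonneg
  set K := (2 * ((D : ℝ) + 1)) ^ (#S) with hK
  have hK0 : 0 ≤ K := by positivity
  set μ := 1 + ρ * A with hμ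
  have hμ1 : 1 ≤ μ := by
    have : 0 ≤ ρ * A := by positivity
    linarith
  have hmR : (1 : ℝ) ≤ m := by exact_mod_cast hm1
  have hρabs : |(D : ℝ) / (D + 1) - c| ≤ 1 := by rw [hρd, abs_of_pos hρ0]; exact hρ1
  have s1 := sum_second (g := g) (α := α) (S := S) hi hm ha hc (by rw [hρd]; exact hρ0.le) hρabs hT
  have s2 := tail_sum (g := g) (α := α) (S := S) hi hm ha hc hρabs hT U hU hv
  rw [hρd] at s1
  rw [← hA, ← hμ, ← hδ, ← hK] at s1
  rw [← hδ, ← hK] at s2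
  set X : Ω → ℝ := fun ω => ∑ i ∈ range m, XX g α w S D c a (y i) ω with hX
  set V : Ω → ℝ := fun ω => ∑ i ∈ range m,
    FF g α w S D c none (y i) ω * RR g α a w (U i) (y i) ω with hV
  have hXm : Measurable X := Finset.measurable_sum _ fun i _ => XX_measurable hm hc _
  have hVm : Measurable V := Finset.measurable_sum _ fun i _ =>
    (FF_measurable hm S hc none _).mul (RR_measurable hm _ _)
  have hXb : ∀ ω, |X ω| ≤ ∑ i ∈ range m, (1 + A) * K := fun ω =>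
    le_trans (abs_sum_le_sum_abs _ _) (sum_le_sum fun i _ => XX_abs_le ha hc _ ω)
  have hVb : ∀ ω, |V ω| ≤ ∑ i ∈ range m, K * ∑ n ∈ U i, a n := fun ω =>
    le_trans (abs_sum_le_sum_abs _ _) (sum_le_sum fun i _ => by
      rw [abs_mul]
      exact mul_le_mul (FF_abs_le g α w S hc none _ ω) (RR_abs_le ha _ _ ω) (abs_nonneg _) hK0)
  have i1 : Integrable (fun ω => (X ω - m * μ) ^ 2) P := by
    refine integrable_bdd (C := (∑ i ∈ range m, (1 + A) * K + m * μ) ^ 2) (by fun_prop) fun ω => ?_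
    rw [abs_pow]
    have : |X ω - m * μ| ≤ ∑ i ∈ range m, (1 + A) * K + m * μ := by
      refine le_trans (abs_sub _ _) ?_
      rw [abs_of_nonneg (show (0 : ℝ) ≤ m * μ by positivity)]
      linarith [hXb ω]
    gcongr
  have i2 : Integrable (fun ω => V ω ^ 2) P := by
    refine integrable_bdd (C := (∑ i ∈ range m, K * ∑ n ∈ U i, a n) ^ 2) (by fun_prop) fun ω => ?_
    rw [abs_pow]
    have := hVb ω
    gcongr
  have hFm : MeasurableSet F := by
    have : F = ⋂ i ∈ Set.Iio m, {ω | RR g α a w S (y i) ω + RR g α a w (U i) (y i) ω ≤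
      c * A - 1} := by
      ext ω
      simp [hF]
    rw [this]
    refine MeasurableSet.biInter (Set.to_countable _) fun i _ => ?_
    exact measurableSet_le ((RR_measurable hm _ _).add (RR_measurable hm _ _)) measurable_const
  have hkey : ∀ ω, F.indicator (fun _ => ((m : ℝ) * μ) ^ 2) ω ≤
      2 * (X ω - m * μ) ^ 2 + 2 * V ω ^ 2 := by
    intro ω
    by_cases hω : ω ∈ F
    · rw [Set.indicator_of_mem hω]
      have h1 : X ω + V ω ≤ 0 := by
        simp only [hX, hV]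
        rw [← sum_add_distrib]
        apply sum_nonpos
        intro i hi'
        rw [XX_eq, ← mul_add]
        apply mul_nonpos_of_nonneg_of_nonpos (Z_nonneg g α w S D c _ ω)
        have h2 := hω i (mem_range.mp hi')
        unfold RR at h2 ⊢
        rw [← hA]
        linarith
      have h3 : (0 : ℝ) ≤ m * μ := by positivity
      nlinarith [sq_nonneg (X ω - m * μ - V ω), sq_nonneg (X ω + V ω)]
    · rw [Set.indicator_of_notMem hω]
      positivity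
  have hint : ((m : ℝ) * μ) ^ 2 * P.real F ≤
      2 * ∫ ω, (X ω - m * μ) ^ 2 ∂P + 2 * ∫ ω, V ω ^ 2 ∂P := by
    have h1 : ∫ ω, F.indicator (fun _ => ((m : ℝ) * μ) ^ 2) ω ∂P =
        P.real F * ((m : ℝ) * μ) ^ 2 := by
      rw [integral_indicator_const _ hFm, smul_eq_mul]
    have h2 : ∫ ω, F.indicator (fun _ => ((m : ℝ) * μ) ^ 2) ω ∂P ≤
        ∫ ω, (2 * (X ω - m * μ) ^ 2 + 2 * V ω ^ 2) ∂P := by
      refine integral_mono ((integrable_const _).indicator hFm)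
        ((i1.const_mul 2).add (i2.const_mul 2)) hkey
    rw [integral_add (i1.const_mul 2) (i2.const_mul 2), integral_const_mul,
      integral_const_mul] at h2
    rw [h1] at h2
    linarith
  have hB : ρ * (1 + A) ≤ μ := by
    rw [hμ]
    nlinarith
  -- algebra
  have hx : ((m : ℝ) * μ) ^ 2 * P.real F ≤ ((m : ℝ) * μ) ^ 2 *
      (6 * δ / ρ ^ 2 + 2 * (K ^ 2 / m) / ρ ^ 2 + 2 * v * (K ^ 2 / m + 1 + δ)) := by
    refine le_trans hint ?_
    have hBB : (1 + A) ^ 2 ≤ μ ^ 2 / ρ ^ 2 := by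
      rw [le_div_iff₀ (by positivity)]
      have : 0 ≤ ρ * (1 + A) := by positivity
      nlinarith
    have hBμ : μ * (1 + A) ≤ μ ^ 2 / ρ ^ 2 := by
      rw [le_div_iff₀ (by positivity)]
      have h1 : 0 ≤ μ * (1 + A) * ρ := by positivity
      have h2 : μ * (1 + A) * ρ ^ 2 ≤ μ * (1 + A) * ρ := by
        have : ρ ^ 2 ≤ ρ := by nlinarith
        exact mul_le_mul_of_nonneg_left this (by positivity)
      nlinarith
    have t1 : ∫ ω, (X ω - m * μ) ^ 2 ∂P ≤ (m : ℝ) ^ 2 * (3 * δ * (μ ^ 2 / ρ ^ 2)) +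
        m * (K ^ 2 * (μ ^ 2 / ρ ^ 2)) := by
      refine le_trans s1 ?_
      have q1 : (1 + A) ^ 2 * δ + 2 * μ * ((1 + A) * δ) ≤ 3 * δ * (μ ^ 2 / ρ ^ 2) := by
        have r1 : (1 + A) ^ 2 * δ ≤ μ ^ 2 / ρ ^ 2 * δ := mul_le_mul_of_nonneg_right hBB hδ0
        have r2 : μ * (1 + A) * δ ≤ μ ^ 2 / ρ ^ 2 * δ := mul_le_mul_of_nonneg_right hBμ hδ0
        nlinarith
      have q2 : ((1 + A) * K) ^ 2 ≤ K ^ 2 * (μ ^ 2 / ρ ^ 2) := by
        have := mul_le_mul_of_nonneg_right hBB (sq_nonneg K)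
        nlinarith
      have q3 := mul_le_mul_of_nonneg_left q1 (sq_nonneg (m : ℝ))
      have q4 := mul_le_mul_of_nonneg_left q2 (show (0 : ℝ) ≤ m by positivity)
      linarith
    have t2 : ∫ ω, V ω ^ 2 ∂P ≤ v * (m * K ^ 2 + (m : ℝ) ^ 2 * (1 + δ)) * μ ^ 2 := by
      refine le_trans s2 ?_
      have h1 : (1 : ℝ) ≤ μ ^ 2 := one_le_pow₀ hμ1
      have h2 : 0 ≤ v * (m * K ^ 2 + (m : ℝ) ^ 2 * (1 + δ)) := by positivity
      nlinarith
    have e1 : ((m : ℝ) * μ) ^ 2 *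
      (6 * δ / ρ ^ 2 + 2 * (K ^ 2 / m) / ρ ^ 2 + 2 * v * (K ^ 2 / m + 1 + δ)) =
      2 * ((m : ℝ) ^ 2 * (3 * δ * (μ ^ 2 / ρ ^ 2)) + m * (K ^ 2 * (μ ^ 2 / ρ ^ 2))) +
      2 * (v * (m * K ^ 2 + (m : ℝ) ^ 2 * (1 + δ)) * μ ^ 2) := by
      have hm0 : (m : ℝ) ≠ 0 := by positivity
      field_simp
      ring
    rw [e1]
    linarith
  have hpos : 0 < ((m : ℝ) * μ) ^ 2 := by positivity
  exact le_of_mul_le_mul_left hx hpos

end Pool.Agent.Helper51.DO
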