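import Pool.Agent.Helper51.DO.L6
import Pool.Agent.Helper11.DO.Bl

/-!
# Displaced ordinates, lower half 7: the tail of the square sum, the times
Author: helper51.
-/

set_option autoImplicit false

namespace Pool.Agent.Helper51.DO

open MeasureTheory ProbabilityTheory Filter Finset

theorem summable_sq {g : ℕ → ℝ} {c : ℕ → ℂ} (h : Data g c) : Summable fun n => ‖c n‖ ^ 2 := by
  classical
  obtain ⟨C, hC0, hC⟩ := Pool.Agent.Helper11.DO.sq_Dk h (e := 1 / 2) (by norm_num)
  set r : ℝ := (2 : ℝ) ^ ((1 : ℝ) / 2 - 1) with hr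
  have hr0 : 0 < r := by positivity
  have hr1 : r < 1 := Real.rpow_lt_one_of_one_lt_of_neg (by norm_num) (by norm_num)
  refine summable_of_sum_le (c := ∑ n ∈ upto g 1, ‖c n‖ ^ 2 + C / (1 - r))
    (fun n => by positivity) (fun U => ?_)
  rw [← sum_filter_add_sum_filter_not U (fun n => g n ≤ 1)]
  apply add_le_add
  · apply sum_le_sum_of_subset_of_nonneg
    · intro n hn
      rw [mem_upto (h.fin 1)]
      exact (mem_filter.mp hn).2
    · intro n _ _
      positivity
  · set V := U.filter (fun n => ¬ g n ≤ 1) with hV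
    set I := V.sup (fun n => Pool.Agent.Helper11.DO.blk g n) + 1 with hI
    have hmap : ∀ n ∈ V, Pool.Agent.Helper11.DO.blk g n ∈ range I := by
      intro n hn
      rw [mem_range, hI]
      exact Nat.lt_succ_of_le (le_sup (f := fun n => Pool.Agent.Helper11.DO.blk g n) hn)
    rw [← sum_fiberwise_of_maps_to hmap]
    calc ∑ i ∈ range I, ∑ n ∈ V with Pool.Agent.Helper11.DO.blk g n = i, ‖c n‖ ^ 2
        ≤ ∑ i ∈ range I, C * r ^ i := by
          refine sum_le_sum fun i _ => le_trans ?_ (hC i)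
          apply sum_le_sum_of_subset_of_nonneg
          · intro n hn
            rw [mem_filter] at hn
            rw [Pool.Agent.Helper11.DO.mem_Dk h.fin]
            have h1 : 1 ≤ g n := by
              have := (mem_filter.mp hn.1).2
              exact (not_le.mp this).le
            rw [← hn.2]
            exact ⟨(Pool.Agent.Helper11.DO.lt_blk g n).le, Pool.Agent.Helper11.DO.blk_le h1⟩
          · intro n _ _
            positivity
      _ = C * ∑ i ∈ range I, r ^ i := by rw [mul_sum]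
      _ ≤ C * (1 - r)⁻¹ := by
          apply mul_le_mul_of_nonneg_left _ hC0.le
          exact (summable_geometric_of_lt_one hr0.le hr1).sum_le_tsum _ (fun _ _ => by positivity)
            |>.trans_eq (tsum_geometric_of_lt_one hr0.le hr1)
      _ = C / (1 - r) := by rw [div_eq_mul_inv]

theorem tail_sq {g : ℕ → ℝ} {c : ℕ → ℂ} (h : Data g c) : ∃ f : ℝ → ℝ,
    Tendsto f atTop (nhds 0) ∧ ∀ (T : ℝ) (U : Finset ℕ), Disjoint (upto g T) U →
      ∑ n ∈ U, ‖c n‖ ^ 2 ≤ f T := by
  classical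
  have hs := summable_sq h
  refine ⟨fun T => ∑' n, ‖c n‖ ^ 2 - ∑ n ∈ upto g T, ‖c n‖ ^ 2, ?_, fun T U hU => ?_⟩
  · have h1 : Tendsto (fun T => upto g T) atTop atTop := by
      apply tendsto_atTop_finset_of_monotone
      · intro S T hST
        exact upto_mono h.fin hST
      · intro n
        exact ⟨g n, (mem_upto (h.fin _)).mpr le_rfl⟩
    have h2 : Tendsto (fun T => ∑ n ∈ upto g T, ‖c n‖ ^ 2) atTop (nhds (∑' n, ‖c n‖ ^ 2)) :=
      hs.hasSum.comp h1
    have h3 := h2.const_sub (∑' n, ‖c n‖ ^ 2)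
    simpa using h3
  · have h4 : ∑ n ∈ upto g T ∪ U, ‖c n‖ ^ 2 ≤ ∑' n, ‖c n‖ ^ 2 :=
      hs.sum_le_tsum _ fun n _ => by positivity
    rw [sum_union hU] at h4
    linarith

/-- Separation of the times. -/
theorem times_sep {s : ℝ} {L m : ℕ} (hs : (2 * (L : ℝ) + 1) ^ 2 ≤ s) (hm : (m : ℝ) ^ 2 ≤ s)
    {i j : ℕ} (hi : i < m) (hj : j < m) (hij : i ≠ j) (a b : ℤ) (ha : |a| ≤ L) (hb : |b| ≤ L)
    (hab : a ≠ 0 ∨ b ≠ 0) :
    s ≤ |(a : ℝ) * (s ^ 2 + i * s) + b * (s ^ 2 + j * s)| := by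
  have hL0 : (0 : ℝ) ≤ L := Nat.cast_nonneg L
  have hs1 : 1 ≤ s := by nlinarith
  have e1 : (a : ℝ) * (s ^ 2 + i * s) + b * (s ^ 2 + j * s) =
      s * (((a + b : ℤ) : ℝ) * s + (a * i + b * j)) := by
    push_cast
    ring
  rw [e1, abs_mul, abs_of_nonneg (by linarith : (0 : ℝ) ≤ s)]
  apply le_mul_of_one_le_right (by linarith)
  by_cases h0 : a + b = 0
  · have hb' : b = -a := by omega
    subst hb'
    have ha0 : a ≠ 0 := by
      rcases hab with h | h
      · exact h
      · simpa using h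
    rw [h0]
    push_cast
    rw [zero_mul, zero_add]
    have e2 : (a : ℝ) * i + -a * j = ((a * ((i : ℤ) - j) : ℤ) : ℝ) := by
      push_cast
      ring
    rw [e2, ← Int.cast_abs]
    have h1 : a * ((i : ℤ) - j) ≠ 0 := by
      apply mul_ne_zero ha0
      intro h
      apply hij
      omega
    have h2 : 0 < |a * ((i : ℤ) - j)| := abs_pos.mpr h1
    exact_mod_cast h2
  · have hm0 : (0 : ℝ) ≤ m := Nat.cast_nonneg m
    have h1 : |((a + b : ℤ) : ℝ)| * s ≥ s := by
      have h2 : 0 < |a + b| := abs_pos.mpr h0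
      have h3 : (1 : ℝ) ≤ |((a + b : ℤ) : ℝ)| := by
        rw [← Int.cast_abs]
        exact_mod_cast h2
      nlinarith
    have haR : |(a : ℝ)| ≤ L := by
      rw [← Int.cast_abs]
      exact_mod_cast ha
    have hbR : |(b : ℝ)| ≤ L := by
      rw [← Int.cast_abs]
      exact_mod_cast hb
    have hiR : (i : ℝ) ≤ m := by exact_mod_cast hi.le
    have hjR : (j : ℝ) ≤ m := by exact_mod_cast hj.le
    have h4 : |(a : ℝ) * i + b * j| ≤ 2 * L * m := by
      calc |(a : ℝ) * i + b * j| ≤ |(a : ℝ) * i| + |(b : ℝ) * j| := abs_add_le _ _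
        _ = |(a : ℝ)| * i + |(b : ℝ)| * j := by
            have q1 : |(i : ℝ)| = i := abs_of_nonneg (Nat.cast_nonneg i)
            have q2 : |(j : ℝ)| = j := abs_of_nonneg (Nat.cast_nonneg j)
            rw [abs_mul, abs_mul, q1, q2]
        _ ≤ L * m + L * m := by
            apply add_le_add
            · exact mul_le_mul haR hiR (Nat.cast_nonneg i) hL0
            · exact mul_le_mul hbR hjR (Nat.cast_nonneg j) hL0
        _ = 2 * L * m := by ring
    -- 2 L m + 1 ≤ s
    have h5 : 2 * (L : ℝ) * m + 1 ≤ s := by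
      set q := Real.sqrt s with hq
      have hq2 : q ^ 2 = s := Real.sq_sqrt (by linarith)
      have hq0 : 0 ≤ q := Real.sqrt_nonneg s
      have hmq : (m : ℝ) ≤ q := Real.le_sqrt_of_sq_le hm
      have hLq : 2 * (L : ℝ) + 1 ≤ q := Real.le_sqrt_of_sq_le hs
      have h6 : 2 * (L : ℝ) * m ≤ 2 * L * q := by
        apply mul_le_mul_of_nonneg_left hmq (by positivity)
      nlinarith
    have h7 : |((a + b : ℤ) : ℝ) * s + (a * i + b * j)| ≥
        |((a + b : ℤ) : ℝ) * s| - |(a : ℝ) * i + b * j| := by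
      have := abs_sub_abs_le_abs_add (((a + b : ℤ) : ℝ) * s) ((a : ℝ) * i + b * j)
      linarith
    rw [abs_mul, abs_of_nonneg (by linarith : (0 : ℝ) ≤ s)] at h7
    linarith

theorem times_sep1 {s : ℝ} (hs : 1 ≤ s) (i : ℕ) (a : ℤ) (ha : a ≠ 0) :
    s ≤ |(a : ℝ) * (s ^ 2 + i * s)| := by
  rw [abs_mul]
  have h1 : (1 : ℝ) ≤ |(a : ℝ)| := by
    rw [← Int.cast_abs]
    have := abs_pos.mpr ha
    exact_mod_cast this
  have h2 : (0 : ℝ) ≤ i := Nat.cast_nonneg i
  have h3 : s ≤ |s ^ 2 + i * s| := by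
    rw [abs_of_nonneg (by positivity)]
    nlinarith
  nlinarith [abs_nonneg (s ^ 2 + i * s)]

/-- The exponential beats the count. -/
theorem exp_lim {C ε : ℝ} (hε : 0 < ε) :
    Tendsto (fun T : ℝ => 2 * Real.exp (C * T ^ (1 + ε / 2) - T ^ (1 + ε) / 4)) atTop (nhds 0) := by
  have h1 : Tendsto (fun T : ℝ => T ^ (1 + ε / 2)) atTop atTop :=
    tendsto_rpow_atTop (by linarith)
  have h2 : Tendsto (fun T : ℝ => C - T ^ (ε / 2) / 4) atTop atBot := by
    have h3 : Tendsto (fun T : ℝ => T ^ (ε / 2) / 4) atTop atTop :=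
      (tendsto_rpow_atTop (by linarith)).atTop_div_const (by norm_num)
    have h4 : Tendsto (fun T : ℝ => -(T ^ (ε / 2) / 4)) atTop atBot := tendsto_neg_atTop_atBot.comp h3
    have h5 := tendsto_atBot_add_const_left atTop C h4
    simpa [sub_eq_add_neg] using h5
  have h3 : Tendsto (fun T : ℝ => T ^ (1 + ε / 2) * (C - T ^ (ε / 2) / 4)) atTop atBot :=
    h1.atTop_mul_atBot₀ h2
  have h4 : Tendsto (fun T : ℝ => C * T ^ (1 + ε / 2) - T ^ (1 + ε) / 4) atTop atBot := by
    refine h3.congr' ?_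
    filter_upwards [eventually_gt_atTop (0 : ℝ)] with T hT
    have : T ^ (1 + ε) = T ^ (1 + ε / 2) * T ^ (ε / 2) := by
      rw [← Real.rpow_add hT]
      congr 1
      ring
    rw [this]
    ring
  have h5 := (Real.tendsto_exp_atBot.comp h4).const_mul 2
  simpa using h5

end Pool.Agent.Helper51.DO
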